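import Pool.Agent.Q172.Diff.Z1
import Pool.Agent.Q278.GF.C

/-! Truncated second moments of block sums of gaps, over the index. -/

set_option autoImplicit false

open Filter Topology Set MeasureTheory

namespace Q172.Mem

open SG (ord NZ)
open H177.Lat (yy)
open Pool.Agent.Y744 (Xf Xf_pos)
open Pool.Agent.Q276.NV (DD hs var_lim end_count NZ_lim)
open Q172.Diff
open Pool.Agent.Q278.GF (dl)

/-- the height attached to `N` -/
noncomputable def TN (N : ℕ) : ℝ := ord (N + 1) + 1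

lemma TN_tendsto : Tendsto TN atTop atTop := by
  unfold TN
  exact tendsto_atTop_add_const_right _ _ (SG.ord_tendsto.comp (tendsto_add_atTop_nat 1))

lemma X_le : ∀ᶠ N : ℕ in atTop, Xf (TN N) ≤ 2 * N := by
  obtain ⟨C1, T1, hC1, hT1, hend⟩ := end_count
  have ev1 := (Metric.tendsto_nhds.1 NZ_lim) (1 / 10) (by norm_num)
  have ev3 : ∀ᶠ T : ℝ in atTop, C1 * Real.log T ^ 2 ≤ (1 / 10) * Xf T := by
    have h1 := Pool.Agent.Q276.NV.logpow_lim C1 2
    have h2 := (Metric.tendsto_nhds.1 h1) (1 / 10) (by norm_num)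
    filter_upwards [h2, eventually_gt_atTop (Real.exp 7)] with T a1 a3
    have hT0 : 0 < T := (Real.exp_pos _).trans a3
    have hlog : 7 < Real.log T := (Real.lt_log_iff_exp_lt hT0).2 a3
    rw [Real.dist_eq, sub_zero] at a1
    have a4 := (abs_lt.1 a1).2
    rw [mul_div_assoc', div_lt_iff₀ hT0] at a4
    have a5 : T ≤ Xf T := by
      unfold Xf
      rw [le_div_iff₀ (by positivity)]
      have := Real.pi_lt_d2
      exact mul_le_mul_of_nonneg_left (by linarith) hT0.le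
    linarith
  filter_upwards [TN_tendsto.eventually ev1, TN_tendsto.eventually ev3,
    TN_tendsto.eventually_ge_atTop T1] with N h1 h3 h4
  set T := TN N with hT
  have hT1' : 1 < T := by linarith
  have hX := Xf_pos hT1'
  have h5 := hend T h4
  have h6 : NZ (T - 2) ≤ N := by
    have h7 : ¬ (ord (N + 1) ≤ T - 2) := by
      rw [hT]
      unfold TN
      linarith
    rw [SG.ord_le_iff (by omega)] at h7
    omega
  have h8 : (NZ (T - 2) : ℝ) ≤ N := by exact_mod_cast h6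
  have h9 : (NZ T : ℝ) ≤ NZ (T + 1) := by exact_mod_cast SG.NZ_mono (by linarith)
  rw [Real.dist_eq, abs_lt] at h1
  have h10 : 9 / 10 * Xf T ≤ NZ T := by
    have := h1.1
    have h11 : (9 / 10 : ℝ) ≤ NZ T / Xf T := by linarith
    rwa [le_div_iff₀ hX] at h11
  linarith

/-- the variances at a set of lengths -/
lemma var_ev : ∃ C0 : ℝ, 0 ≤ C0 ∧ ∀ M : ℕ, ∀ᶠ T : ℝ in atTop, ∀ l : ℕ, l ≤ M →
    ∫ t in (0:ℝ)..(Xf T), (Dd (nT T) (l : ℝ) t) ^ 2 ≤ (C0 + Real.log (max 1 (l : ℝ))) * Xf T := by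
  obtain ⟨C0, hC0, hvar⟩ := var_lim
  refine ⟨C0, hC0, fun M => ?_⟩
  have hpi := Real.pi_gt_three
  have hvar2 : ∀ᶠ T : ℝ in atTop, ∀ l ∈ Finset.Icc 1 M,
      |1 / T * (∫ t in (0 : ℝ)..T, (DD (hs T 0) (hs T (l:ℝ)) t - ((l:ℝ) - 0)) ^ 2) -
        1 / Real.pi ^ 2 * Real.log ((l:ℝ) - 0)| ≤ C0 := by
    rw [Filter.eventually_all_finset]
    intro l hl
    rw [Finset.mem_Icc] at hl
    exact hvar 0 l (by rw [sub_zero]; exact_mod_cast hl.1)
  filter_upwards [hvar2, eventually_gt_atTop 1] with T v hT l hl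
  have hX := Xf_pos hT
  rcases Nat.eq_zero_or_pos l with h0 | h0
  · rw [h0]
    have : ∀ t : ℝ, Dd (nT T) ((0:ℕ):ℝ) t ^ 2 = 0 := by
      intro t
      unfold Dd
      simp
    simp_rw [this]
    rw [intervalIntegral.integral_zero]
    have : 0 ≤ Real.log (max 1 ((0:ℕ):ℝ)) := Real.log_nonneg (le_max_left _ _)
    positivity
  · have h1 := v l (Finset.mem_Icc.2 ⟨h0, hl⟩)
    have h2 := (abs_le.1 h1).2
    simp_rw [Dd_nT]
    rw [scale_int hT (fun s => (DD (hs T 0) (hs T (l:ℝ)) s - (l:ℝ)) ^ 2)]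
    rw [sub_zero] at h2
    have hl1 : (1:ℝ) ≤ l := by exact_mod_cast h0
    have h3 : 0 ≤ Real.log l := Real.log_nonneg hl1
    have h4 : 1 / Real.pi ^ 2 * Real.log l ≤ Real.log l := by
      refine mul_le_of_le_one_left h3 ?_
      rw [div_le_one (by positivity)]
      nlinarith
    rw [mul_comm, max_eq_right hl1]
    refine mul_le_mul_of_nonneg_right ?_ hX.le
    linarith

/-- positions near the top -/
lemma top_pos (J : ℕ) : ∀ᶠ N : ℕ in atTop, (2:ℝ) ^ J < yy (TN N) 1 ∧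
    yy (TN N) (N + 1) + 2 ^ J ≤ Xf (TN N) := by
  have ev6 : ∀ᶠ T : ℝ in atTop, 7 * (2:ℝ) ^ J ≤ Real.log T :=
    Real.tendsto_log_atTop.eventually_ge_atTop _
  have ev7 : ∀ᶠ T : ℝ in atTop, 7 * (2:ℝ) ^ J < ord 1 * Real.log T :=
    (Real.tendsto_log_atTop.const_mul_atTop (SG.ord_pos le_rfl)).eventually_gt_atTop _
  have hpi := Real.pi_gt_three
  have hpi3 := Real.pi_lt_d2
  have hp0 : (0:ℝ) < 2 ^ J := by positivity
  filter_upwards [TN_tendsto.eventually ev6, TN_tendsto.eventually ev7,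
    TN_tendsto.eventually_gt_atTop 1] with N a6 a7 h1
  have hlog := Real.log_pos h1
  have h1' : (2:ℝ) ^ J * (2 * Real.pi) ≤ (2:ℝ) ^ J * 7 :=
    mul_le_mul_of_nonneg_left (by linarith) hp0.le
  constructor
  · unfold yy
    rw [lt_div_iff₀ (by positivity)]
    linarith
  · have h3 : (2:ℝ) ^ J ≤ Real.log (TN N) / (2 * Real.pi) := by
      rw [le_div_iff₀ (by positivity)]
      linarith
    have h4 : Xf (TN N) = yy (TN N) (N + 1) + Real.log (TN N) / (2 * Real.pi) := by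
      unfold Xf yy
      have : ord (N + 1) = TN N - 1 := by unfold TN; ring
      rw [this]
      ring
    linarith

/-- **block sums of truncated gaps**, at the scale of the height -/
theorem td_av : ∃ C : ℝ, 0 < C ∧ ∀ Λ k : ℕ, 1 ≤ Λ → k ≤ Λ → ∀ᶠ N : ℕ in atTop,
    ∑ m ∈ Finset.Icc 1 N, (td (yy (TN N)) Λ k m) ^ 2 ≤ C * (1 + Real.log Λ) ^ 2 * N := by
  obtain ⟨C0, hC0, hvar⟩ := var_ev
  refine ⟨4 + 768 * (C0 + 6), by positivity, fun Λ k hΛ hk => ?_⟩
  have hΛ1 : (1:ℝ) ≤ Λ := by exact_mod_cast hΛ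
  have hlΛ : 0 ≤ Real.log Λ := Real.log_nonneg hΛ1
  filter_upwards [TN_tendsto.eventually (hvar (5 * Λ ^ 4)), X_le, top_pos (JJ Λ),
    TN_tendsto.eventually_gt_atTop 1, eventually_ge_atTop 1] with N h1 h2 h3 h4 h5
  set T := TN N with hT
  have hX := Xf_pos h4
  have F := flowT h4
  have hV : ∀ l : ℕ, l ≤ Λ + 2 ^ JJ Λ → ∫ t in (0:ℝ)..(Xf T), (Dd (nT T) (l : ℝ) t) ^ 2 ≤
      ((C0 + 6) * (1 + Real.log Λ)) * Xf T := by
    intro l hl
    have hl2 : l ≤ 5 * Λ ^ 4 := by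
      have h6 := JJ_le hΛ
      have h7 : Λ ≤ Λ ^ 2 := Nat.le_self_pow (by norm_num) Λ
      omega
    refine (h1 l hl2).trans (mul_le_mul_of_nonneg_right ?_ hX.le)
    have h8 : Real.log (max 1 (l : ℝ)) ≤ Real.log (5 * (Λ:ℝ) ^ 4) := by
      apply Real.log_le_log (by positivity)
      refine max_le ?_ (by exact_mod_cast hl2)
      have : (1:ℝ) ≤ (Λ:ℝ) ^ 4 := one_le_pow₀ hΛ1
      linarith
    have h9 : Real.log (5 * (Λ:ℝ) ^ 4) = Real.log 5 + 4 * Real.log Λ := by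
      rw [Real.log_mul (by norm_num) (by positivity), Real.log_pow]
      norm_num
    have h10 : Real.log 5 ≤ 4 := by
      have := Real.log_le_sub_one_of_pos (by norm_num : (0:ℝ) < 5)
      linarith
    nlinarith [mul_nonneg hC0 hlΛ]
  have h6 := F.sum_td_sq (JJ Λ) Λ Λ hΛ le_rfl (by
    have := JJ_ge Λ
    have h7 : Λ * Λ ≤ Λ ^ 2 * Λ ^ 2 := by
      have : Λ ≤ Λ ^ 2 := Nat.le_self_pow (by norm_num) Λ
      exact Nat.mul_le_mul this this
    omega) hV 1 (N + 1) le_rfl (by omega) h3.1 h3.2 k hk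
  have e1 : Finset.Ico 1 (N + 1) = Finset.Icc 1 N := by
    ext x; rw [Finset.mem_Ico, Finset.mem_Icc]; omega
  rw [e1] at h6
  refine h6.trans ?_
  have hJ := JJ_log hΛ
  have hN : (1:ℝ) ≤ N := by exact_mod_cast h5
  push_cast
  have b1 : 64 * ((JJ Λ : ℝ) + 1) * ((C0 + 6) * (1 + Real.log Λ) * Xf T) ≤
      64 * (6 * (1 + Real.log Λ)) * ((C0 + 6) * (1 + Real.log Λ) * (2 * N)) := by
    apply mul_le_mul (by linarith) (mul_le_mul_of_nonneg_left h2 (by positivity)) (by positivity)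
      (by positivity)
  have b2 : (1:ℝ) ≤ (1 + Real.log Λ) ^ 2 := one_le_pow₀ (by linarith)
  have b3 : 4 * (N:ℝ) ≤ 4 * (1 + Real.log Λ) ^ 2 * N := by nlinarith
  have b4 : 64 * (6 * (1 + Real.log Λ)) * ((C0 + 6) * (1 + Real.log Λ) * (2 * N)) =
    768 * (C0 + 6) * (1 + Real.log Λ) ^ 2 * N := by ring
  have b5 : (4 + 768 * (C0 + 6)) * (1 + Real.log Λ) ^ 2 * N = 4 * (1 + Real.log Λ) ^ 2 * N +
    768 * (C0 + 6) * (1 + Real.log Λ) ^ 2 * N := by ring
  rw [b5]
  linarith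

/-- the total excess of the gaps -/
theorem ex_av : ∃ C : ℝ, 0 < C ∧ ∀ Λ : ℕ, 1 ≤ Λ → ∀ᶠ N : ℕ in atTop,
    ∑ m ∈ Finset.Icc 1 N, (yy (TN N) (m + 1) - yy (TN N) m - min (yy (TN N) (m + 1) - yy (TN N) m) Λ) ≤
      C * (1 + Real.log Λ) / (Λ:ℝ) ^ 2 * N := by
  obtain ⟨C0, hC0, hvar⟩ := var_ev
  refine ⟨2 * (C0 + 1), by positivity, fun Λ hΛ => ?_⟩
  have hΛ1 : (1:ℝ) ≤ Λ := by exact_mod_cast hΛ
  have hlΛ : 0 ≤ Real.log Λ := Real.log_nonneg hΛ1
  filter_upwards [TN_tendsto.eventually (hvar Λ), X_le, top_pos 0,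
    TN_tendsto.eventually_gt_atTop 1, eventually_ge_atTop 1] with N h1 h2 h3 h4 h5
  set T := TN N with hT
  have hX := Xf_pos h4
  have F := flowT h4
  rw [pow_zero] at h3
  have h6 := F.sum_excess Λ hΛ hX.le (h1 Λ le_rfl) (Finset.Icc 1 N) (by
    intro m hm
    rw [Finset.mem_Icc] at hm
    refine ⟨hm.1, ?_, ?_⟩
    · have := F.mono_x le_rfl hm.1
      linarith [h3.1]
    · have := F.mono_x (show 1 ≤ m + 1 by omega) (show m + 1 ≤ N + 1 by omega)
      linarith [h3.2])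
  refine h6.trans ?_
  rw [max_eq_right hΛ1, div_mul_eq_mul_div]
  apply div_le_div_of_nonneg_right _ (by positivity)
  have b1 : (C0 + Real.log Λ) * Xf T ≤ (C0 + Real.log Λ) * (2 * N) :=
    mul_le_mul_of_nonneg_left h2 (by positivity)
  have hN : (0:ℝ) ≤ N := Nat.cast_nonneg N
  nlinarith [mul_nonneg hC0 hlΛ, mul_nonneg (mul_nonneg hC0 hlΛ) hN]

/-! ### The two normalisations -/

/-- the quotient of the two normalisations -/
noncomputable def rho (T : ℝ) (m : ℕ) : ℝ := Real.log (ord m / (2 * Real.pi)) / Real.log T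

lemma dl_eq {T : ℝ} (hT : 1 < T) (m : ℕ) : dl m = rho T m * (yy T (m + 1) - yy T m) := by
  unfold dl rho yy
  have := Real.log_pos hT
  have := Real.pi_pos
  field_simp

/-- the truncation -/
noncomputable def cl (Λ x : ℝ) : ℝ := max 0 (min x Λ)

lemma cl_nonneg (Λ x : ℝ) : 0 ≤ cl Λ x := le_max_left _ _

lemma cl_le {Λ : ℝ} (h : 0 ≤ Λ) (x : ℝ) : cl Λ x ≤ Λ := max_le h (min_le_right _ _)

lemma cl_cmp {Λ ρ x : ℝ} (hΛ : 0 ≤ Λ) (h0 : 0 ≤ ρ) (h1 : ρ ≤ 1) (hx : 0 ≤ x) :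
    |cl Λ (ρ * x) - min x Λ| ≤ (1 - ρ) * Λ := by
  have e : cl Λ (ρ * x) = min (ρ * x) Λ := max_eq_right (le_min (mul_nonneg h0 hx) hΛ)
  rw [e]
  have a1 : min (ρ * x) Λ ≤ min x Λ := min_le_min_right _ (mul_le_of_le_one_left hx h1)
  have a2 : ρ * min x Λ ≤ min (ρ * x) Λ := by
    refine le_min (mul_le_mul_of_nonneg_left (min_le_left _ _) h0) ?_
    exact (mul_le_mul_of_nonneg_left (min_le_right _ _) h0).trans (mul_le_of_le_one_left hΛ h1)
  have a3 : min x Λ ≤ Λ := min_le_right _ _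
  rw [abs_sub_comm, abs_of_nonneg (by linarith)]
  nlinarith

lemma rho_le {N m : ℕ} (h1 : 1 ≤ m) (h : m ≤ N + 1) (hT : 1 < TN N) : rho (TN N) m ≤ 1 := by
  unfold rho
  have hpi := Real.pi_gt_three
  have h0 := SG.ord_pos h1
  rw [div_le_one (Real.log_pos hT)]
  apply Real.log_le_log (by positivity)
  have h2 : ord m ≤ ord (N + 1) := SG.ord_mono h1 h
  rw [div_le_iff₀ (by positivity)]
  have h3 : ord (N + 1) = TN N - 1 := by unfold TN; ring
  nlinarith

/-- the total excess in the intrinsic normalisation -/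
theorem ex_dl : ∃ C : ℝ, 0 < C ∧ ∀ Λ : ℕ, 1 ≤ Λ → ∀ᶠ N : ℕ in atTop,
    ∑ m ∈ Finset.Icc 1 N, max 0 (dl m - Λ) ≤ C * (1 + Real.log Λ) / (Λ:ℝ) ^ 2 * N := by
  obtain ⟨C, hC, h⟩ := ex_av
  refine ⟨C, hC, fun Λ hΛ => ?_⟩
  filter_upwards [h Λ hΛ, TN_tendsto.eventually_gt_atTop 1] with N h1 hT
  refine le_trans (Finset.sum_le_sum fun m hm => ?_) h1
  rw [Finset.mem_Icc] at hm
  have F := flowT hT
  have hg : 0 ≤ yy (TN N) (m + 1) - yy (TN N) m := sub_nonneg.2 (F.mono_x hm.1 (by omega))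
  have hΛ0 : (0:ℝ) ≤ Λ := Nat.cast_nonneg _
  set x := yy (TN N) (m + 1) - yy (TN N) m with hx
  have h2 : dl m ≤ x := by
    rw [dl_eq hT]
    exact mul_le_of_le_one_left hg (rho_le hm.1 (by omega) hT)
  have h3 := min_le_left x (Λ:ℝ)
  have h4 := min_le_right x (Λ:ℝ)
  exact max_le (by linarith) (by linarith)

/-- most indices have a large ordinate -/
lemma low_count (B : ℝ) (hB : 1 ≤ B) : ∀ᶠ T : ℝ in atTop, (NZ (T / B) : ℝ) ≤ 2 / B * Xf T := by
  have hB0 : 0 < B := by linarith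
  have h1 : Tendsto (fun T : ℝ => T / B) atTop atTop := tendsto_id.atTop_div_const hB0
  have h2 := (Metric.tendsto_nhds.1 (NZ_lim.comp h1)) 1 one_pos
  filter_upwards [h2, h1.eventually_gt_atTop 1, eventually_gt_atTop 1] with T a1 a2 a3
  have hX := Xf_pos a2
  simp only [Function.comp] at a1
  rw [Real.dist_eq, abs_lt] at a1
  have a4 : (NZ (T / B) : ℝ) / Xf (T / B) ≤ 2 := by linarith [a1.2]
  rw [div_le_iff₀ hX] at a4
  refine a4.trans ?_
  have a5 : Xf (T / B) ≤ 1 / B * Xf T := by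
    unfold Xf
    have hl : Real.log (T / B) ≤ Real.log T := Real.log_le_log (by positivity)
      (div_le_self (by linarith) hB)
    have hpi := Real.pi_pos
    calc T / B * Real.log (T / B) / (2 * Real.pi) ≤ T / B * Real.log T / (2 * Real.pi) := by
          apply div_le_div_of_nonneg_right _ (by positivity)
          exact mul_le_mul_of_nonneg_left hl (by positivity)
      _ = 1 / B * (T * Real.log T / (2 * Real.pi)) := by ring
  calc 2 * Xf (T / B) ≤ 2 * (1 / B * Xf T) := by linarith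
    _ = 2 / B * Xf T := by ring

/-- the ratio is close to one above -/
lemma rho_near (B η : ℝ) (hB : 1 ≤ B) (hη : 0 < η) : ∀ᶠ T : ℝ in atTop, ∀ m : ℕ,
    NZ (T / B) < m → 1 - η ≤ rho T m ∧ 0 ≤ rho T m := by
  have hpi := Real.pi_gt_three
  have hB0 : 0 < B := by linarith
  filter_upwards [Real.tendsto_log_atTop.eventually_ge_atTop (Real.log (2 * Real.pi * B) / η),
    Real.tendsto_log_atTop.eventually_ge_atTop (Real.log (2 * Real.pi * B)),
    eventually_gt_atTop 1] with T a1 a2 a3 m hm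
  have hlog := Real.log_pos a3
  have hT0 : 0 < T := by linarith
  have h1 : T / B < ord m := by
    by_contra hcon
    rw [not_lt, SG.ord_le_iff (by omega)] at hcon
    omega
  have h2 : Real.log T - Real.log (2 * Real.pi * B) ≤ Real.log (ord m / (2 * Real.pi)) := by
    rw [← Real.log_div hT0.ne' (by positivity)]
    apply Real.log_le_log (by positivity)
    rw [div_le_div_iff₀ (by positivity) (by positivity)]
    rw [div_lt_iff₀ hB0] at h1
    nlinarith
  unfold rho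
  rw [div_le_iff₀ hη] at a1
  constructor
  · rw [le_div_iff₀ hlog]
    nlinarith
  · exact div_nonneg (by linarith) hlog.le

/-- **block sums of truncated gaps in the intrinsic normalisation** -/
theorem td_dl : ∃ C : ℝ, 0 < C ∧ ∀ Λ k : ℕ, 1 ≤ Λ → k ≤ Λ → ∀ᶠ N : ℕ in atTop,
    ∑ m ∈ Finset.Icc 1 N, (∑ i ∈ Finset.range k, (cl Λ (dl (m + i)) - 1)) ^ 2 ≤
      C * (1 + Real.log Λ) ^ 2 * N := by
  obtain ⟨C, hC, h⟩ := td_av
  refine ⟨2 * C + 4, by positivity, fun Λ k hΛ hk => ?_⟩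
  have hΛ1 : (1:ℝ) ≤ Λ := by exact_mod_cast hΛ
  have hlΛ : 0 ≤ Real.log Λ := Real.log_nonneg hΛ1
  have hΛ0 : (0:ℝ) ≤ Λ := by linarith
  set B : ℝ := 4 * (Λ:ℝ) ^ 4 with hB
  have hB1 : 1 ≤ B := by
    have : (1:ℝ) ≤ (Λ:ℝ) ^ 4 := one_le_pow₀ hΛ1
    linarith
  have hη : (0:ℝ) < 1 / (Λ:ℝ) ^ 2 := by positivity
  have hN : Tendsto (fun N : ℕ => (N : ℝ)) atTop atTop := tendsto_natCast_atTop_atTop
  filter_upwards [h Λ k hΛ hk, TN_tendsto.eventually (low_count B hB1),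
    TN_tendsto.eventually (rho_near B _ hB1 hη), X_le, TN_tendsto.eventually_gt_atTop 1,
    hN.eventually_ge_atTop ((k:ℝ) * (Λ:ℝ) ^ 4)] with N h1 h2 h3 h4 hT h5
  set T := TN N with hTd
  have F := flowT hT
  have hkr : (k:ℝ) ≤ Λ := by exact_mod_cast hk
  -- trivial bound
  have triv : ∀ m, (∑ i ∈ Finset.range k, (cl Λ (dl (m + i)) - 1)) ^ 2 ≤ (Λ:ℝ) ^ 4 := by
    intro m
    have a1 : |∑ i ∈ Finset.range k, (cl Λ (dl (m + i)) - 1)| ≤ k * Λ := by
      refine (Finset.abs_sum_le_sum_abs _ _).trans ?_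
      have : ∀ i ∈ Finset.range k, |cl (Λ:ℝ) (dl (m + i)) - 1| ≤ Λ := by
        intro i _
        have b1 := cl_nonneg (Λ:ℝ) (dl (m + i))
        have b2 := cl_le hΛ0 (dl (m + i))
        rw [abs_le]
        constructor <;> linarith
      refine (Finset.sum_le_sum this).trans (le_of_eq ?_)
      rw [Finset.sum_const, Finset.card_range, nsmul_eq_mul]
    rw [← sq_abs]
    have a2 : (k:ℝ) * Λ ≤ (Λ:ℝ) ^ 2 := by nlinarith
    calc |∑ i ∈ Finset.range k, (cl Λ (dl (m + i)) - 1)| ^ 2 ≤ ((Λ:ℝ) ^ 2) ^ 2 :=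
          pow_le_pow_left₀ (abs_nonneg _) (a1.trans a2) 2
      _ = (Λ:ℝ) ^ 4 := by ring
  have hpt : ∀ m ∈ Finset.Icc 1 N, (∑ i ∈ Finset.range k, (cl Λ (dl (m + i)) - 1)) ^ 2 ≤
      (2 * (td (yy T) Λ k m) ^ 2 + 2) + ((if m ≤ NZ (T / B) then (Λ:ℝ) ^ 4 else 0) +
        (if N < m + k then (Λ:ℝ) ^ 4 else 0)) := by
    intro m hm
    rw [Finset.mem_Icc] at hm
    have hp4 : (0:ℝ) ≤ (Λ:ℝ) ^ 4 := by positivity
    by_cases c1 : m ≤ NZ (T / B)
    · rw [if_pos c1]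
      have := triv m
      have : 0 ≤ (td (yy T) Λ k m) ^ 2 := sq_nonneg _
      split_ifs <;> linarith
    by_cases c2 : N < m + k
    · rw [if_pos c2]
      have := triv m
      have : 0 ≤ (td (yy T) Λ k m) ^ 2 := sq_nonneg _
      split_ifs <;> linarith
    rw [if_neg c1, if_neg c2, add_zero, add_zero]
    have hd : |∑ i ∈ Finset.range k, (cl Λ (dl (m + i)) - 1) - td (yy T) Λ k m| ≤ 1 := by
      unfold td tg
      rw [← Finset.sum_sub_distrib]
      refine (Finset.abs_sum_le_sum_abs _ _).trans ?_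
      have : ∀ i ∈ Finset.range k, |cl (Λ:ℝ) (dl (m + i)) - 1 -
          (min (yy T (m + i + 1) - yy T (m + i)) Λ - 1)| ≤ 1 / (Λ:ℝ) ^ 2 * Λ := by
        intro i hi
        rw [Finset.mem_range] at hi
        obtain ⟨r1, r2⟩ := h3 (m + i) (by omega)
        have r3 : rho T (m + i) ≤ 1 := rho_le (by omega) (by omega) hT
        have hg : 0 ≤ yy T (m + i + 1) - yy T (m + i) := sub_nonneg.2 (F.mono_x (by omega) (by omega))
        rw [dl_eq hT, sub_sub_sub_cancel_right]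
        refine (cl_cmp hΛ0 r2 r3 hg).trans ?_
        exact mul_le_mul_of_nonneg_right (by linarith) hΛ0
      refine (Finset.sum_le_sum this).trans ?_
      rw [Finset.sum_const, Finset.card_range, nsmul_eq_mul]
      calc (k:ℝ) * (1 / (Λ:ℝ) ^ 2 * Λ) ≤ Λ * (1 / (Λ:ℝ) ^ 2 * Λ) :=
            mul_le_mul_of_nonneg_right hkr (by positivity)
        _ = 1 := by field_simp
    set u := ∑ i ∈ Finset.range k, (cl Λ (dl (m + i)) - 1)
    set v := td (yy T) Λ k m
    obtain ⟨d1, d2⟩ := abs_le.1 hd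
    nlinarith [sq_nonneg (u - v), sq_nonneg (u - 2 * v), mul_self_nonneg (u - v)]
  refine (Finset.sum_le_sum hpt).trans ?_
  rw [Finset.sum_add_distrib, Finset.sum_add_distrib, Finset.sum_add_distrib, ← Finset.mul_sum,
    Finset.sum_const, Nat.card_Icc, nsmul_eq_mul, Nat.add_sub_cancel]
  have hN0 : (0:ℝ) ≤ N := Nat.cast_nonneg N
  have s1 : ∑ m ∈ Finset.Icc 1 N, (if m ≤ NZ (T / B) then (Λ:ℝ) ^ 4 else 0) ≤ N := by
    rw [← Finset.sum_filter, Finset.sum_const, nsmul_eq_mul]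
    have b1 : (((Finset.Icc 1 N).filter fun m => m ≤ NZ (T / B)).card : ℝ) ≤ NZ (T / B) := by
      have : ((Finset.Icc 1 N).filter fun m => m ≤ NZ (T / B)) ⊆ Finset.Icc 1 (NZ (T / B)) := by
        intro x hx
        rw [Finset.mem_filter, Finset.mem_Icc] at hx
        rw [Finset.mem_Icc]
        omega
      have := Finset.card_le_card this
      rw [Nat.card_Icc, Nat.add_sub_cancel] at this
      exact_mod_cast this
    have b2 : (NZ (T / B) : ℝ) ≤ 2 / B * (2 * N) :=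
      h2.trans (mul_le_mul_of_nonneg_left h4 (by positivity))
    calc _ ≤ (2 / B * (2 * N)) * (Λ:ℝ) ^ 4 := mul_le_mul_of_nonneg_right (b1.trans b2) (by positivity)
      _ = N := by rw [hB]; field_simp; ring
  have s2 : ∑ m ∈ Finset.Icc 1 N, (if N < m + k then (Λ:ℝ) ^ 4 else 0) ≤ N := by
    rw [← Finset.sum_filter, Finset.sum_const, nsmul_eq_mul]
    have b1 : (((Finset.Icc 1 N).filter fun m => N < m + k).card : ℝ) ≤ k := by
      have : ((Finset.Icc 1 N).filter fun m => N < m + k) ⊆ Finset.Ioc (N - k) N := by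
        intro x hx
        rw [Finset.mem_filter, Finset.mem_Icc] at hx
        rw [Finset.mem_Ioc]
        omega
      have := Finset.card_le_card this
      rw [Nat.card_Ioc] at this
      have : ((Finset.Icc 1 N).filter fun m => N < m + k).card ≤ k := by omega
      exact_mod_cast this
    exact (mul_le_mul_of_nonneg_right b1 (by positivity)).trans h5
  have b2 : (1:ℝ) ≤ (1 + Real.log Λ) ^ 2 := one_le_pow₀ (by linarith)
  have b3 : 4 * (N:ℝ) ≤ 4 * (1 + Real.log Λ) ^ 2 * N := by nlinarith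
  have b5 : (2 * C + 4) * (1 + Real.log Λ) ^ 2 * N = 2 * (C * (1 + Real.log Λ) ^ 2 * N) +
    4 * (1 + Real.log Λ) ^ 2 * N := by ring
  rw [b5]
  linarith

end Q172.Mem
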