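import Pool.Agent.Q172.Mem.H3
import Pool.Agent.Q172.ZetaLim.Seq

/-! The space `L²` of a stationary process. -/

set_option autoImplicit false

namespace Q172.Mem

open Finset MeasureTheory
open scoped RealInnerProductSpace ENNReal
open Q172.ZetaLim (shift measurable_shift)

variable {P : Measure (ℤ → ℝ)}

lemma map_eval (hs : P.map shift = P) (k : ℤ) :
    P.map (fun q : ℤ → ℝ => q (k + 1)) = P.map (fun q : ℤ → ℝ => q k) := by
  conv_rhs => rw [← hs]
  rw [Measure.map_map (measurable_pi_apply k) measurable_shift]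
  rfl

lemma map_eval_zero (hs : P.map shift = P) (k : ℤ) :
    P.map (fun q : ℤ → ℝ => q k) = P.map (fun q : ℤ → ℝ => q 0) := by
  induction k using Int.induction_on with
  | zero => rfl
  | succ j ih => rw [map_eval hs, ih]
  | pred j ih =>
    have := map_eval hs (-(j : ℤ) - 1)
    rw [sub_add_cancel] at this
    rw [← this, ih]

lemma memLp_all (hs : P.map shift = P) (h0 : MemLp (fun q : ℤ → ℝ => q 0 - 1) 2 P) (k : ℤ) :
    MemLp (fun q : ℤ → ℝ => q k - 1) 2 P := by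
  have m0 : AEMeasurable (fun q : ℤ → ℝ => q 0) P := (measurable_pi_apply 0).aemeasurable
  have mk : AEMeasurable (fun q : ℤ → ℝ => q k) P := (measurable_pi_apply k).aemeasurable
  have h1 : MemLp (fun x : ℝ => x - 1) 2 (P.map (fun q : ℤ → ℝ => q 0)) :=
    (memLp_map_measure_iff (by fun_prop) m0).2 h0
  rw [← map_eval_zero hs k] at h1
  exact (memLp_map_measure_iff (by fun_prop) mk).1 h1

/-- the centred coordinates in `L²` -/
noncomputable def ee (h : ∀ k : ℤ, MemLp (fun q : ℤ → ℝ => q k - 1) 2 P) (k : ℤ) : Lp ℝ 2 P :=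
  (h k).toLp _

/-- the shift on `L²` -/
noncomputable def UU (hs : P.map shift = P) : Lp ℝ 2 P →ₗᵢ[ℝ] Lp ℝ 2 P :=
  Lp.compMeasurePreservingₗᵢ ℝ shift ⟨measurable_shift, hs⟩

lemma UU_ee (hs : P.map shift = P) (h : ∀ k : ℤ, MemLp (fun q : ℤ → ℝ => q k - 1) 2 P) (k : ℤ) :
    UU hs (ee h k) = ee h (k + 1) := by
  rfl

theorem filtP (hs : P.map shift = P) (h : ∀ k : ℤ, MemLp (fun q : ℤ → ℝ => q k - 1) 2 P) :
    Filt (QQ (ee h)) (UU hs) (ee h) := filt (UU_ee hs h)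

lemma lin_eq (h : ∀ k : ℤ, MemLp (fun q : ℤ → ℝ => q k - 1) 2 P) {ι : Type*} (S : Finset ι)
    (a : ι → ℝ) (n : ι → ℤ) : ∃ hm : MemLp (fun q : ℤ → ℝ => ∑ i ∈ S, a i * (q (n i) - 1)) 2 P,
      ∑ i ∈ S, a i • ee h (n i) = hm.toLp _ := by
  classical
  have hm : MemLp (fun q : ℤ → ℝ => ∑ i ∈ S, a i * (q (n i) - 1)) 2 P :=
    memLp_finsetSum S fun i _ => (h (n i)).const_mul (a i)
  refine ⟨hm, ?_⟩
  apply Lp.ext
  refine Filter.EventuallyEq.trans ?_ hm.coeFn_toLp.symm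
  have h1 : ((∑ i ∈ S, a i • ee h (n i) : Lp ℝ 2 P) : (ℤ → ℝ) → ℝ) =ᵐ[P]
      ∑ i ∈ S, ((a i • ee h (n i) : Lp ℝ 2 P) : (ℤ → ℝ) → ℝ) := Lp.coeFn_finsetSum _ _
  refine h1.trans ?_
  have h2 : ∀ᵐ q ∂P, ∀ i ∈ S, ((a i • ee h (n i) : Lp ℝ 2 P) : (ℤ → ℝ) → ℝ) q = a i * (q (n i) - 1) := by
    rw [Filter.eventually_all_finset]
    intro i _
    filter_upwards [Lp.coeFn_smul (a i) (ee h (n i)), (h (n i)).coeFn_toLp] with q h3 h4
    rw [h3, Pi.smul_apply, smul_eq_mul]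
    unfold ee
    rw [h4]
  filter_upwards [h2] with q hq
  rw [Finset.sum_apply]
  exact Finset.sum_congr rfl hq

/-- squares of norms -/
lemma lin_norm (h : ∀ k : ℤ, MemLp (fun q : ℤ → ℝ => q k - 1) 2 P) {ι : Type*} (S : Finset ι)
    (a : ι → ℝ) (n : ι → ℤ) :
    ‖∑ i ∈ S, a i • ee h (n i)‖ ^ 2 = ∫ q, (∑ i ∈ S, a i * (q (n i) - 1)) ^ 2 ∂P := by
  obtain ⟨hm, e1⟩ := lin_eq h S a n
  rw [e1, ← real_inner_self_eq_norm_sq, L2.inner_def]
  refine integral_congr_ae ?_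
  filter_upwards [hm.coeFn_toLp] with q hq
  rw [hq, real_inner_self_eq_norm_sq, Real.norm_eq_abs, sq_abs]

/-- inner products -/
lemma lin_inner (h : ∀ k : ℤ, MemLp (fun q : ℤ → ℝ => q k - 1) 2 P) {ι : Type*} (S : Finset ι)
    (a : ι → ℝ) (n : ι → ℤ) (m : ℤ) :
    ⟪∑ i ∈ S, a i • ee h (n i), ee h m⟫ = ∫ q, (∑ i ∈ S, a i * (q (n i) - 1)) * (q m - 1) ∂P := by
  obtain ⟨hm, e1⟩ := lin_eq h S a n
  rw [e1, L2.inner_def]
  refine integral_congr_ae ?_
  filter_upwards [hm.coeFn_toLp, (h m).coeFn_toLp] with q hq hq2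
  unfold ee
  rw [hq, hq2, real_inner_eq_mul']
where
  real_inner_eq_mul' {x y : ℝ} : ⟪x, y⟫ = x * y := by
    rw [real_inner_comm]; simp

/-- the elements of the span of the past -/
lemma span_form {H : Type*} [AddCommGroup H] [Module ℝ H] (e : ℤ → H) {y : H}
    (hy : y ∈ Submodule.span ℝ (e '' Set.Iic 0)) :
    ∃ (K : ℕ) (a : ℕ → ℝ), (∀ k, K ≤ k → a k = 0) ∧ y = ∑ k ∈ range K, a k • e (-(k : ℤ)) := by
  induction hy using Submodule.span_induction with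
  | mem x hx =>
    obtain ⟨k, hk, rfl⟩ := hx
    have hk' : k ≤ 0 := hk
    refine ⟨k.natAbs + 1, fun i => if i = k.natAbs then 1 else 0, fun i hi => ?_, ?_⟩
    · exact if_neg (by omega)
    · rw [Finset.sum_eq_single k.natAbs]
      · beta_reduce
        rw [if_pos rfl, one_smul]
        congr 1
        omega
      · intro i _ hi
        beta_reduce
        rw [if_neg hi, zero_smul]
      · intro hi
        exact absurd (Finset.mem_range.2 (by omega)) hi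
  | zero => exact ⟨0, fun _ => 0, fun _ _ => rfl, by simp⟩
  | add x y _ _ hx hy =>
    obtain ⟨K1, a1, h1, e1⟩ := hx
    obtain ⟨K2, a2, h2, e2⟩ := hy
    have ext : ∀ (K K' : ℕ) (a : ℕ → ℝ), (∀ k, K ≤ k → a k = 0) → K ≤ K' →
        ∑ k ∈ range K, a k • e (-(k : ℤ)) = ∑ k ∈ range K', a k • e (-(k : ℤ)) := by
      intro K K' a ha hK
      refine Finset.sum_subset (Finset.range_subset_range.2 hK) fun k _ hk => ?_
      rw [Finset.mem_range, not_lt] at hk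
      rw [ha k hk, zero_smul]
    refine ⟨max K1 K2, fun k => a1 k + a2 k, fun k hk => ?_, ?_⟩
    · show a1 k + a2 k = 0
      rw [h1 k ((le_max_left _ _).trans hk), h2 k ((le_max_right _ _).trans hk), add_zero]
    · rw [e1, e2, ext K1 (max K1 K2) a1 h1 (le_max_left _ _), ext K2 (max K1 K2) a2 h2 (le_max_right _ _),
        ← Finset.sum_add_distrib]
      exact Finset.sum_congr rfl fun k _ => (add_smul _ _ _).symm
  | smul b x _ hx =>
    obtain ⟨K, a, h1, e1⟩ := hx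
    refine ⟨K, fun k => b * a k, fun k hk => by show b * a k = 0; rw [h1 k hk, mul_zero], ?_⟩
    rw [e1, Finset.smul_sum]
    exact Finset.sum_congr rfl fun k _ => smul_smul _ _ _

/-- a large prediction norm in terms of finite linear combinations of the past -/
theorem gain_of (h : ∀ k : ℤ, MemLp (fun q : ℤ → ℝ => q k - 1) 2 P) (m : ℕ) {a : ℝ} (ha : 0 < a)
    (hg : a ≤ g (QQ (ee h)) (ee h) m) : ∃ (K : ℕ) (b : ℕ → ℝ),
      ∫ q, (∑ k ∈ range K, b k * (q (-(k : ℤ)) - 1)) ^ 2 ∂P ≤ 1 ∧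
      a / 2 ≤ ∫ q, (∑ k ∈ range K, b k * (q (-(k : ℤ)) - 1)) * (q m - 1) ∂P := by
  obtain ⟨y, hy, h1, h2⟩ := finite_combo (ee h) (ee h m) ha hg
  obtain ⟨K, b, -, rfl⟩ := span_form (ee h) hy
  refine ⟨K, b, ?_, ?_⟩
  · rw [← lin_norm h (range K) b fun k => -(k : ℤ)]
    exact pow_le_one₀ (norm_nonneg _) h1
  · rw [← lin_inner h (range K) b (fun k => -(k : ℤ)) m]
    exact h2

end Q172.Mem
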