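import Pool.Agent.Q172.Mem.G1
import Pool.Agent.Q172.Mem.H4
import Pool.Agent.Q172.ZetaLim.Rigid

/-! Second moments of the limits of the gap process. -/

set_option autoImplicit false

open Filter Topology Set MeasureTheory

namespace Q172.Mem

open Q172.ZetaLim (seen shift IsLim lim_le map_shift integrable_of_bdd)
open Pool.Agent.Q278.GF (dl)
open SG (ord NZ)

variable {P : ProbabilityMeasure (ℤ → ℝ)}

lemma of_min {F : (ℤ → ℝ) → ℝ} (hF : Continuous F) (h0 : ∀ x, 0 ≤ F x) {a : ℝ}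
    (hmin : ∀ n : ℕ, ∫ x, min (F x) n ∂(P : Measure (ℤ → ℝ)) ≤ a) :
    Integrable F (P : Measure (ℤ → ℝ)) ∧ ∫ x, F x ∂(P : Measure (ℤ → ℝ)) ≤ a := by
  have ha : 0 ≤ a := by
    refine le_trans ?_ (hmin 0)
    exact integral_nonneg fun x => le_min (h0 x) (Nat.cast_nonneg 0)
  have hl : ∫⁻ x, ENNReal.ofReal (F x) ∂(P : Measure (ℤ → ℝ)) ≤ ENNReal.ofReal a := by
    have e : ∀ x, ENNReal.ofReal (F x) = ⨆ n : ℕ, ENNReal.ofReal (min (F x) n) := by
      intro x
      refine le_antisymm ?_ (iSup_le fun n => ENNReal.ofReal_le_ofReal (min_le_left _ _))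
      obtain ⟨n, hn⟩ := exists_nat_ge (F x)
      refine le_trans (le_of_eq ?_) (le_iSup (fun n : ℕ => ENNReal.ofReal (min (F x) n)) n)
      rw [min_eq_left hn]
    simp only [e]
    rw [lintegral_iSup]
    · refine iSup_le fun n => ?_
      rw [← ofReal_integral_eq_lintegral_ofReal]
      · exact ENNReal.ofReal_le_ofReal (hmin n)
      · exact integrable_of_bdd P (hF.min continuous_const).measurable (C := n) (fun x => by
          rw [abs_of_nonneg (le_min (h0 x) (Nat.cast_nonneg n))]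
          exact min_le_right _ _)
      · exact Filter.Eventually.of_forall fun x => le_min (h0 x) (Nat.cast_nonneg n)
    · intro n
      exact ((hF.min continuous_const).measurable).ennreal_ofReal
    · intro m n hmn x
      exact ENNReal.ofReal_le_ofReal (min_le_min le_rfl (by exact_mod_cast hmn))
  have hint : Integrable F (P : Measure (ℤ → ℝ)) := by
    refine ⟨hF.measurable.aestronglyMeasurable, ?_⟩
    rw [hasFiniteIntegral_iff_ofReal (Filter.Eventually.of_forall h0)]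
    exact lt_of_le_of_lt hl ENNReal.ofReal_lt_top
  refine ⟨hint, ?_⟩
  rw [← ENNReal.ofReal_le_ofReal_iff ha,
    ofReal_integral_eq_lintegral_ofReal hint (Filter.Eventually.of_forall h0)]
  exact hl

/-- the first coordinate beyond `Λ` -/
theorem ex_P : ∃ C : ℝ, 0 < C ∧ ∀ P : ProbabilityMeasure (ℤ → ℝ), IsLim (seen dl) P →
    ∀ Λ : ℕ, 1 ≤ Λ → Integrable (fun q : ℤ → ℝ => max 0 (q 0 - Λ)) (P : Measure (ℤ → ℝ)) ∧
      ∫ q, max 0 (q 0 - Λ) ∂(P : Measure (ℤ → ℝ)) ≤ C * (1 + Real.log Λ) / (Λ:ℝ) ^ 2 := by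
  obtain ⟨C, hC, h⟩ := ex_dl
  refine ⟨C, hC, fun P hP Λ hΛ => ?_⟩
  refine Q172.ZetaLim.fatou hP (by fun_prop) (fun q => le_max_left _ _) fun ε hε => ?_
  filter_upwards [h Λ hΛ] with N hN
  have hN0 : (0:ℝ) ≤ N := Nat.cast_nonneg N
  refine le_trans (le_of_eq (Finset.sum_congr rfl fun n hn => ?_)) (hN.trans ?_)
  · rw [Finset.mem_Icc] at hn
    have := Q172.ZetaLim.seen_add dl n 0 hn.1
    rw [Nat.cast_zero, add_zero] at this
    rw [this]
  · nlinarith

lemma layer (m : ℕ) : ∀ y : ℝ, (min (max y 0) m) ^ 2 ≤ 2 * ∑ j ∈ Finset.range m, max 0 (y - j) := by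
  induction m with
  | zero =>
    intro y
    have : min (max y 0) ((0:ℕ):ℝ) = 0 := by
      rw [Nat.cast_zero]; exact min_eq_right (le_max_right _ _)
    rw [this]; simp
  | succ m ih =>
    intro y
    rw [Finset.sum_range_succ']
    have e1 : ∀ j : ℕ, max 0 (y - ((j + 1 : ℕ) : ℝ)) = max 0 ((y - 1) - j) := by
      intro j; push_cast; congr 1; ring
    simp only [e1]
    have h1 := ih (y - 1)
    rw [Nat.cast_zero, sub_zero]
    push_cast
    have hm : (0:ℝ) ≤ m := Nat.cast_nonneg m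
    have hS : 0 ≤ ∑ j ∈ Finset.range m, max 0 (y - 1 - (j:ℝ)) :=
      Finset.sum_nonneg fun _ _ => le_max_left _ _
    rcases le_total y 0 with h | h
    · rw [max_eq_right h, min_eq_left (by positivity), max_eq_left h]
      nlinarith
    · rw [max_eq_left h, max_eq_right h]
      rcases le_total y 1 with h2 | h2
      · rw [min_eq_left (by linarith)]
        nlinarith
      · rw [max_eq_left (by linarith : (0:ℝ) ≤ y - 1)] at h1
        have e2 : min y ((m:ℝ) + 1) = min (y - 1) m + 1 := by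
          rw [← min_add_add_right]; congr 1; ring
        rw [e2]
        have h3 : min (y - 1) (m:ℝ) ≤ y - 1 := min_le_left _ _
        nlinarith

lemma inv_sqrt_step {j : ℕ} (hj : 1 ≤ j) :
    (1 + Real.log j) / (j:ℝ) ^ 2 ≤ 8 * (1 / √(j:ℝ) - 1 / √((j + 1 : ℕ) : ℝ)) := by
  have hj1 : (1:ℝ) ≤ j := by exact_mod_cast hj
  have hj0 : (0:ℝ) < j := by linarith
  set a := √(j:ℝ) with ha
  set b := √((j + 1 : ℕ) : ℝ) with hb
  have ha0 : 0 < a := Real.sqrt_pos.2 hj0
  have hb0 : 0 < b := Real.sqrt_pos.2 (by positivity)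
  have ha2 : a ^ 2 = j := Real.sq_sqrt hj0.le
  have hb2 : b ^ 2 = j + 1 := by rw [hb, Real.sq_sqrt (by positivity)]; push_cast; ring
  have hab : a ≤ b := Real.sqrt_le_sqrt (by push_cast; linarith)
  have ha1 : 1 ≤ a := by nlinarith
  have hlog : 1 + Real.log j ≤ 2 * a := by
    rw [← ha2, Real.log_pow]
    have := Real.log_le_sub_one_of_pos ha0
    push_cast
    linarith
  have hb3 : b ≤ 2 * a := by nlinarith
  have e1 : 1 / a - 1 / b = (b - a) / (a * b) := by field_simp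
  have e2 : (b - a) * (b + a) = 1 := by nlinarith
  have h1 : 1 / (3 * a) ≤ b - a := by
    rw [div_le_iff₀ (by positivity)]
    have : (b - a) * (b + a) ≤ (b - a) * (3 * a) := mul_le_mul_of_nonneg_left (by linarith) (by linarith)
    linarith
  have hb4 : b * b ≤ 2 * (a * a) := by nlinarith
  have hb5 : b ≤ 3 / 2 * a := by nlinarith
  have h1' : 2 / (5 * a) ≤ b - a := by
    rw [div_le_iff₀ (by positivity)]
    have : (b - a) * (b + a) ≤ (b - a) * (5 / 2 * a) := mul_le_mul_of_nonneg_left (by linarith) (by linarith)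
    linarith
  rw [e1, div_le_iff₀ (by positivity), ← ha2]
  have h2 : 8 * ((b - a) / (a * b)) * (a ^ 2) ^ 2 = 8 * (b - a) * a ^ 3 / b := by field_simp
  rw [h2, le_div_iff₀ hb0]
  have h3 : (1 + Real.log j) * b ≤ 2 * a * (3 / 2 * a) :=
    mul_le_mul hlog hb5 hb0.le (by positivity)
  have h4 : 2 / (5 * a) * (8 * a ^ 3) ≤ (b - a) * (8 * a ^ 3) :=
    mul_le_mul_of_nonneg_right h1' (by positivity)
  have h5 : 2 / (5 * a) * (8 * a ^ 3) = 16 / 5 * a ^ 2 := by field_simp; ring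
  rw [ha2] at *
  nlinarith

/-- second moment beyond `Λ` -/
theorem sq_P : ∃ C : ℝ, 0 < C ∧ ∀ P : ProbabilityMeasure (ℤ → ℝ), IsLim (seen dl) P →
    ∀ Λ : ℕ, 1 ≤ Λ → Integrable (fun q : ℤ → ℝ => (max 0 (q 0 - Λ)) ^ 2) (P : Measure (ℤ → ℝ)) ∧
      ∫ q, (max 0 (q 0 - Λ)) ^ 2 ∂(P : Measure (ℤ → ℝ)) ≤ C / √(Λ:ℝ) := by
  obtain ⟨C, hC, h⟩ := ex_P
  refine ⟨16 * C, by positivity, fun P hP Λ hΛ => ?_⟩
  refine of_min (by fun_prop) (fun q => sq_nonneg _) fun n => ?_
  have hi : ∀ j ∈ Finset.range n, Integrable (fun q : ℤ → ℝ => max 0 (q 0 - ((Λ + j : ℕ) : ℝ)))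
      (P : Measure (ℤ → ℝ)) := fun j _ => (h P hP (Λ + j) (by omega)).1
  have h1 : ∫ q, min ((max 0 (q 0 - Λ)) ^ 2) (n:ℝ) ∂(P : Measure (ℤ → ℝ)) ≤
      ∫ q, 2 * ∑ j ∈ Finset.range n, max 0 (q 0 - ((Λ + j : ℕ) : ℝ)) ∂(P : Measure (ℤ → ℝ)) := by
    refine integral_mono ?_ ((integrable_finsetSum _ hi).const_mul 2) fun q => ?_
    · refine integrable_of_bdd P (by fun_prop) (C := n) fun q => ?_
      rw [abs_of_nonneg (le_min (sq_nonneg _) (Nat.cast_nonneg n))]
      exact min_le_right _ _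
    · show min ((max 0 (q 0 - Λ)) ^ 2) (n:ℝ) ≤ 2 * ∑ j ∈ Finset.range n, max 0 (q 0 - ((Λ + j : ℕ) : ℝ))
      have h2 := layer n (q 0 - Λ)
      have e1 : ∀ j : ℕ, max 0 (q 0 - ((Λ + j : ℕ) : ℝ)) = max 0 (q 0 - Λ - j) := by
        intro j; push_cast; congr 1; ring
      simp only [e1]
      refine le_trans ?_ h2
      rw [max_comm]
      rcases le_total (max (q 0 - Λ) 0) (n:ℝ) with h3 | h3
      · rw [min_eq_left h3]
        exact min_le_left _ _
      · rw [min_eq_right h3]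
        refine (min_le_right _ _).trans ?_
        rcases Nat.eq_zero_or_pos n with h0 | h0
        · rw [h0]; simp
        · have : (1:ℝ) ≤ n := by exact_mod_cast h0
          nlinarith
  refine h1.trans ?_
  rw [integral_const_mul, integral_finsetSum _ hi]
  have h3 : ∑ j ∈ Finset.range n, ∫ q, max 0 (q 0 - ((Λ + j : ℕ) : ℝ)) ∂(P : Measure (ℤ → ℝ)) ≤
      ∑ j ∈ Finset.range n, C * (8 * (1 / √((Λ + j : ℕ) : ℝ) - 1 / √((Λ + (j + 1) : ℕ) : ℝ))) := by
    refine Finset.sum_le_sum fun j _ => ?_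
    refine (h P hP (Λ + j) (by omega)).2.trans ?_
    rw [mul_div_assoc]
    exact mul_le_mul_of_nonneg_left (inv_sqrt_step (by omega)) hC.le
  rw [← Finset.mul_sum, ← Finset.mul_sum, Finset.sum_range_sub' (fun j : ℕ => 1 / √((Λ + j : ℕ) : ℝ))] at h3
  have h4 : 0 ≤ 1 / √((Λ + n : ℕ) : ℝ) := by positivity
  rw [add_zero] at h3
  have h5 : C * (8 * (1 / √(Λ:ℝ) - 1 / √((Λ + n : ℕ) : ℝ))) ≤ C * (8 * (1 / √(Λ:ℝ))) := by
    apply mul_le_mul_of_nonneg_left _ hC.le
    linarith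
  calc 2 * _ ≤ 2 * (C * (8 * (1 / √(Λ:ℝ)))) := by linarith
    _ = 16 * C / √(Λ:ℝ) := by ring

lemma pos_ev : ∃ n0 : ℕ, ∀ n, n0 ≤ n → 0 ≤ dl n := by
  refine ⟨NZ (2 * Real.pi) + 1, fun n hn => ?_⟩
  have hpi := Real.pi_gt_three
  have hn1 : 1 ≤ n := by omega
  have h2 : 2 * Real.pi < SG.ord n := by
    by_contra hcon
    push Not at hcon
    have := (SG.ord_le_iff hn1 (2 * Real.pi)).mp hcon
    have h3 : NZ (2 * Real.pi) < n := by omega
    exact absurd this (not_le.mpr h3)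
  have h3 : 0 ≤ Real.log (SG.ord n / (2 * Real.pi)) := by
    apply Real.log_nonneg
    rw [le_div_iff₀ (by positivity)]
    linarith
  have hm := SG.ord_mono hn1 (Nat.le_succ n)
  show 0 ≤ (SG.ord (n + 1) - SG.ord n) / (2 * Real.pi) * Real.log (SG.ord n / (2 * Real.pi))
  exact mul_nonneg (div_nonneg (sub_nonneg.2 hm) (by positivity)) h3

lemma nonneg_P (hP : IsLim (seen dl) P) : ∀ᵐ q ∂(P : Measure (ℤ → ℝ)), ∀ k : ℤ, 0 ≤ q k := by
  obtain ⟨n0, hn0⟩ := pos_ev
  exact ae_all_iff.2 fun k => Q172.ZetaLim.nonneg hn0 hP k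

lemma split_x {Λ x : ℝ} (hΛ : 0 ≤ Λ) (hx : 0 ≤ x) : x - 1 = (cl Λ x - 1) + max 0 (x - Λ) := by
  unfold cl
  rcases le_total x Λ with h | h
  · rw [min_eq_left h, max_eq_right hx, max_eq_left (by linarith)]; ring
  · rw [min_eq_right h, max_eq_right hΛ, max_eq_right (by linarith)]; ring

/-- the gaps are square integrable -/
theorem memLp_P (hP : IsLim (seen dl) P) (k : ℤ) :
    MemLp (fun q : ℤ → ℝ => q k - 1) 2 (P : Measure (ℤ → ℝ)) := by
  refine memLp_all (map_shift hP) ?_ k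
  obtain ⟨C, hC, h⟩ := sq_P
  have hm : AEStronglyMeasurable (fun q : ℤ → ℝ => q 0 - 1) (P : Measure (ℤ → ℝ)) := by
    have : Continuous (fun q : ℤ → ℝ => q 0 - 1) := by fun_prop
    exact this.aestronglyMeasurable
  rw [memLp_two_iff_integrable_sq hm]
  refine Integrable.mono' (((integrable_const (2:ℝ)).add ((h P hP 1 le_rfl).1.const_mul 2))) ?_ ?_
  · have : Continuous (fun q : ℤ → ℝ => (q 0 - 1) ^ 2) := by fun_prop
    exact this.aestronglyMeasurable
  · filter_upwards [nonneg_P hP] with q hq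
    have h1 := split_x (zero_le_one : (0:ℝ) ≤ 1) (hq 0)
    have h2 := cl_nonneg 1 (q 0)
    have h3 := cl_le (zero_le_one : (0:ℝ) ≤ 1) (q 0)
    rw [Real.norm_eq_abs, abs_of_nonneg (sq_nonneg _), h1]
    simp only [Pi.add_apply, Nat.cast_one]
    nlinarith [sq_nonneg (cl 1 (q 0) - 1 - max 0 (q 0 - 1)), sq_nonneg (cl 1 (q 0) - 1)]

end Q172.Mem
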