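import Pool.Agent.Q172.Mem.G2

/-! The variance of a block of gaps of a limit process. -/

set_option autoImplicit false

open Filter Topology Set MeasureTheory

namespace Q172.Mem

open Q172.ZetaLim (seen shift IsLim lim_le map_shift integrable_of_bdd)
open Pool.Agent.Q278.GF (dl)
open SG (ord NZ)

lemma int_stat {P : Measure (ℤ → ℝ)} (hs : P.map shift = P) {G : ℝ → ℝ} (hG : Continuous G) (k : ℤ) :
    ∫ q, G (q k) ∂P = ∫ q, G (q 0) ∂P := by
  have m0 : AEMeasurable (fun q : ℤ → ℝ => q 0) P := (measurable_pi_apply 0).aemeasurable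
  have mk : AEMeasurable (fun q : ℤ → ℝ => q k) P := (measurable_pi_apply k).aemeasurable
  have h1 := integral_map (f := G) mk hG.aestronglyMeasurable
  have h2 := integral_map (f := G) m0 hG.aestronglyMeasurable
  rw [map_eval_zero hs k, h2] at h1
  exact h1.symm

lemma integrable_stat {P : Measure (ℤ → ℝ)} (hs : P.map shift = P) {G : ℝ → ℝ} (hG : Continuous G)
    (h0 : Integrable (fun q : ℤ → ℝ => G (q 0)) P) (k : ℤ) :
    Integrable (fun q : ℤ → ℝ => G (q k)) P := by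
  have m0 : AEMeasurable (fun q : ℤ → ℝ => q 0) P := (measurable_pi_apply 0).aemeasurable
  have mk : AEMeasurable (fun q : ℤ → ℝ => q k) P := (measurable_pi_apply k).aemeasurable
  have h1 : Integrable G (P.map (fun q : ℤ → ℝ => q 0)) :=
    (integrable_map_measure hG.aestronglyMeasurable m0).2 h0
  rw [← map_eval_zero hs k] at h1
  exact (integrable_map_measure hG.aestronglyMeasurable mk).1 h1

/-- the variance of a block of `L` gaps -/
theorem blk : ∃ A : ℝ, 0 < A ∧ ∀ P : ProbabilityMeasure (ℤ → ℝ), IsLim (seen dl) P →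
    ∀ L : ℕ, 1 ≤ L →
      ∫ q, (∑ i ∈ Finset.range L, (q (i : ℤ) - 1)) ^ 2 ∂(P : Measure (ℤ → ℝ)) ≤
        A * (1 + Real.log L) ^ 2 := by
  obtain ⟨C, hC, htd⟩ := td_dl
  obtain ⟨C', hC', hsq⟩ := sq_P
  refine ⟨32 * C + 2 * C', by positivity, fun P hP L hL => ?_⟩
  have hL1 : (1:ℝ) ≤ L := by exact_mod_cast hL
  have hlL : 0 ≤ Real.log L := Real.log_nonneg hL1
  set Λ : ℕ := L ^ 4 with hΛ
  have hΛ1 : 1 ≤ Λ := Nat.one_le_pow _ _ (by omega)
  have hLΛ : L ≤ Λ := Nat.le_self_pow (by norm_num) L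
  have hΛ0 : (0:ℝ) ≤ Λ := Nat.cast_nonneg _
  have hs := map_shift hP
  have hcl : Continuous fun x : ℝ => cl (Λ:ℝ) x := by unfold cl; fun_prop
  -- the truncated part
  have hFc : Continuous fun q : ℤ → ℝ => (∑ i ∈ Finset.range L, (cl (Λ:ℝ) (q (i:ℤ)) - 1)) ^ 2 := by
    refine Continuous.pow (continuous_finsetSum _ fun i _ => ?_) 2
    exact (hcl.comp (continuous_apply _)).sub continuous_const
  have hF := Q172.ZetaLim.fatou hP hFc (fun _ => sq_nonneg _) (a := C * (1 + Real.log Λ) ^ 2)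
    (fun ε hε => by
      filter_upwards [htd Λ L hΛ1 hLΛ] with N hN
      have hN0 : (0:ℝ) ≤ N := Nat.cast_nonneg N
      refine le_trans (le_of_eq (Finset.sum_congr rfl fun n hn => ?_)) (hN.trans ?_)
      · rw [Finset.mem_Icc] at hn
        congr 1
        refine Finset.sum_congr rfl fun i _ => ?_
        rw [Q172.ZetaLim.seen_add dl n i hn.1]
      · nlinarith)
  -- the excess part
  have hGc : Continuous fun x : ℝ => (max 0 (x - Λ)) ^ 2 := by fun_prop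
  obtain ⟨hi0, hb0⟩ := hsq P hP Λ hΛ1
  have hi : ∀ i ∈ Finset.range L, Integrable (fun q : ℤ → ℝ => (max 0 (q (i:ℤ) - (Λ:ℝ))) ^ 2)
      (P : Measure (ℤ → ℝ)) := fun i _ => integrable_stat hs hGc hi0 i
  have hE : ∫ q, (L:ℝ) * ∑ i ∈ Finset.range L, (max 0 (q (i:ℤ) - (Λ:ℝ))) ^ 2 ∂(P : Measure (ℤ → ℝ)) ≤ C' := by
    rw [integral_const_mul, integral_finsetSum _ hi]
    have h1 : ∀ i ∈ Finset.range L, ∫ q, (max 0 (q (i:ℤ) - (Λ:ℝ))) ^ 2 ∂(P : Measure (ℤ → ℝ)) ≤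
        C' / √(Λ:ℝ) := by
      intro i _
      rw [int_stat hs hGc (i:ℤ)]
      exact hb0
    refine (mul_le_mul_of_nonneg_left (Finset.sum_le_sum h1) (by positivity)).trans ?_
    rw [Finset.sum_const, Finset.card_range, nsmul_eq_mul]
    have e1 : √(Λ:ℝ) = (L:ℝ) ^ 2 := by
      rw [hΛ]; push_cast
      rw [show (L:ℝ) ^ 4 = ((L:ℝ) ^ 2) ^ 2 by ring, Real.sqrt_sq (by positivity)]
    rw [e1]
    have : (0:ℝ) < L := by linarith
    apply le_of_eq
    field_simp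
  have hiS : Integrable (fun q : ℤ → ℝ => 2 * (∑ i ∈ Finset.range L, (cl (Λ:ℝ) (q (i:ℤ)) - 1)) ^ 2 +
      2 * ((L:ℝ) * ∑ i ∈ Finset.range L, (max 0 (q (i:ℤ) - (Λ:ℝ))) ^ 2)) (P : Measure (ℤ → ℝ)) :=
    (hF.1.const_mul 2).add (((integrable_finsetSum _ hi).const_mul _).const_mul 2)
  have hpt : ∀ᵐ q ∂(P : Measure (ℤ → ℝ)), (∑ i ∈ Finset.range L, (q (i : ℤ) - 1)) ^ 2 ≤
      2 * (∑ i ∈ Finset.range L, (cl (Λ:ℝ) (q (i:ℤ)) - 1)) ^ 2 +
      2 * ((L:ℝ) * ∑ i ∈ Finset.range L, (max 0 (q (i:ℤ) - (Λ:ℝ))) ^ 2) := by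
    filter_upwards [nonneg_P hP] with q hq
    have e1 : ∑ i ∈ Finset.range L, (q (i : ℤ) - 1) =
        ∑ i ∈ Finset.range L, (cl (Λ:ℝ) (q (i:ℤ)) - 1) + ∑ i ∈ Finset.range L, max 0 (q (i:ℤ) - (Λ:ℝ)) := by
      rw [← Finset.sum_add_distrib]
      exact Finset.sum_congr rfl fun i _ => split_x hΛ0 (hq i)
    have e2 := sq_sum_le_card_mul_sum_sq (s := Finset.range L)
      (f := fun i : ℕ => max 0 (q (i:ℤ) - Λ))
    rw [Finset.card_range] at e2
    rw [e1]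
    set u := ∑ i ∈ Finset.range L, (cl (Λ:ℝ) (q (i:ℤ)) - 1)
    set v := ∑ i ∈ Finset.range L, max 0 (q (i:ℤ) - (Λ:ℝ))
    nlinarith [sq_nonneg (u - v)]
  have hcont : Continuous fun q : ℤ → ℝ => (∑ i ∈ Finset.range L, (q (i : ℤ) - 1)) ^ 2 := by
    fun_prop
  have hiL : Integrable (fun q : ℤ → ℝ => (∑ i ∈ Finset.range L, (q (i : ℤ) - 1)) ^ 2)
      (P : Measure (ℤ → ℝ)) := by
    refine Integrable.mono' hiS hcont.aestronglyMeasurable ?_
    filter_upwards [hpt] with q hq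
    rw [Real.norm_eq_abs, abs_of_nonneg (sq_nonneg _)]
    exact hq
  refine (integral_mono_ae hiL hiS hpt).trans ?_
  rw [integral_add (hF.1.const_mul 2) (((integrable_finsetSum _ hi).const_mul _).const_mul 2),
    integral_const_mul, integral_const_mul]
  have e3 : Real.log Λ = 4 * Real.log L := by
    rw [hΛ]; push_cast
    rw [Real.log_pow]; norm_num
  have h5 : C * (1 + Real.log Λ) ^ 2 ≤ 16 * C * (1 + Real.log L) ^ 2 := by
    rw [e3]
    have : (1 + 4 * Real.log L) ^ 2 ≤ 16 * (1 + Real.log L) ^ 2 := by nlinarith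
    nlinarith
  have h6 : C' ≤ C' * (1 + Real.log L) ^ 2 := by
    have : (1:ℝ) ≤ (1 + Real.log L) ^ 2 := one_le_pow₀ (by linarith)
    nlinarith
  have h7 := hF.2
  nlinarith

/-- the same for the norms in `L²` -/
theorem blk_norm : ∃ A : ℝ, 0 < A ∧ ∀ P : ProbabilityMeasure (ℤ → ℝ), IsLim (seen dl) P →
    ∀ h : ∀ k : ℤ, MemLp (fun q : ℤ → ℝ => q k - 1) 2 (P : Measure (ℤ → ℝ)),
    ∀ L : ℕ, 1 ≤ L → ‖∑ i ∈ Finset.range L, ee h (i : ℤ)‖ ^ 2 ≤ A * (1 + Real.log L) ^ 2 := by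
  obtain ⟨A, hA, hb⟩ := blk
  refine ⟨A, hA, fun P hP h L hL => ?_⟩
  have h1 := lin_norm h (Finset.range L) (fun _ => (1:ℝ)) (fun i => (i : ℤ))
  simp only [one_smul, one_mul] at h1
  rw [h1]
  exact hb P hP L hL

end Q172.Mem
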