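import Pool.Agent.Q172.Mem.G3
import Pool.Agent.Q278.GF.M

/-! A smooth statistic of the gaps whose variance stays away from zero. -/

set_option autoImplicit false

open Filter Topology Set MeasureTheory ProbabilityTheory
open scoped ContDiff

namespace Q172.Mem

open Q172.ZetaLim (seen shift IsLim lim_le map_shift integrable_of_bdd)
open Pool.Agent.Q278.GF (dl Fn Fn_eq_sum Fn_cont cdf_lim)
open Pool.Agent.Q278.MC (cv cv_pos)
open Pool.Agent.Q278.GF (cc_of)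

/-- a fixed smooth test function -/
theorem test_fn : ∃ (φ : ℝ → ℝ) (B : ℝ) (R : ℕ), ContDiff ℝ ∞ φ ∧ HasCompactSupport φ ∧ φ ≠ 0 ∧
    1 ≤ R ∧ 0 ≤ B ∧ (∀ x, |φ x| ≤ 1) ∧ (∀ x, (R:ℝ) ≤ |x| → φ x = 0) ∧
    ∀ x y, |φ x - φ y| ≤ B * |x - y| := by
  let b : ContDiffBump (0:ℝ) := ⟨1, 2, one_pos, one_lt_two⟩
  obtain ⟨C, hC⟩ := ContDiff.lipschitzWith_of_hasCompactSupport (n := ∞) b.hasCompactSupport b.contDiff
    (by simp)
  refine ⟨b, C, 2, b.contDiff, b.hasCompactSupport, ?_, by norm_num, C.2, fun x => ?_, fun x hx => ?_,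
    fun x y => ?_⟩
  · intro h
    have h1 : b 0 = 1 := b.one_of_mem_closedBall (by simp [b])
    rw [h] at h1
    simp at h1
  · rw [abs_of_nonneg b.nonneg]
    exact b.le_one
  · refine b.zero_of_le_dist ?_
    rw [dist_zero_right, Real.norm_eq_abs]
    exact_mod_cast hx
  · have := hC.dist_le_mul x y
    rwa [Real.dist_eq, Real.dist_eq] at this

/-- the variance of a smooth statistic is bounded below, uniformly over the limits -/
theorem low_var {φ : ℝ → ℝ} (h1 : ContDiff ℝ ∞ φ) (h2 : HasCompactSupport φ) (h0 : φ ≠ 0) {R : ℕ}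
    (hR : ∀ x, (R:ℝ) ≤ |x| → φ x = 0) :
    ∃ (δ : ℝ) (L0 : ℕ), 0 < δ ∧ 1 ≤ L0 ∧ ∀ L : ℕ, L0 ≤ L → ∀ P : ProbabilityMeasure (ℤ → ℝ),
      IsLim (seen dl) P → ∀ h : ∀ k : ℤ, MemLp (fun q : ℤ → ℝ => q k - 1) 2 (P : Measure (ℤ → ℝ)),
        δ ≤ ‖Y (ee h) (fun k => φ (k / L)) (R * L)‖ ^ 2 := by
  have hv : 0 < cv φ φ := cv_pos (cc_of h1 h2) h0
  have hv' : (cv φ φ).toNNReal ≠ 0 := by
    rw [ne_eq, Real.toNNReal_eq_zero, not_le]
    exact hv
  set G := gaussianReal 0 (cv φ φ).toNNReal with hG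
  have hpos : 0 < G.real (Set.Iic (-1)) := by
    have hne : G (Set.Iic (-1)) ≠ 0 := by
      intro hz
      have := gaussianReal_absolutelyContinuous' 0 hv' hz
      rw [Real.volume_Iic] at this
      exact ENNReal.top_ne_zero this
    exact (ENNReal.toReal_pos hne (measure_ne_top _ _))
  obtain ⟨L0, hL0, hc⟩ := cdf_lim h1 h2 h0 (-1) (G.real (Set.Iic (-1)) / 2) (by positivity)
  refine ⟨G.real (Set.Iic (-1)) / 2, ⌈L0⌉₊, by positivity, ?_, fun L hL P hP h => ?_⟩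
  · exact Nat.one_le_ceil_iff.2 (by linarith)
  have hLr : L0 ≤ L := (Nat.le_ceil L0).trans (by exact_mod_cast hL)
  have hLp : (0:ℝ) < L := by linarith
  have h3 := (hc L hLr).1 P hP
  have h4 : G.real (Set.Iic (-1)) / 2 ≤ (P : Measure (ℤ → ℝ)).real {q | Fn φ L q ≤ -1} := by
    have := (abs_le.1 h3).1
    linarith
  refine h4.trans ?_
  unfold Y
  rw [lin_norm h]
  have hK : (R:ℝ) * L ≤ ((R * L : ℕ) : ℝ) := by push_cast; exact le_rfl
  have e1 : ∀ q : ℤ → ℝ, ∑ k ∈ Finset.Icc (-((R * L : ℕ) : ℤ)) ((R * L : ℕ) : ℤ), φ (k / L) * (q k - 1) =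
      Fn φ L q := fun q => (Fn_eq_sum hR hLp hK q).symm
  simp only [e1]
  have hint : Integrable (fun q : ℤ → ℝ => Fn φ L q ^ 2) (P : Measure (ℤ → ℝ)) := by
    have hm : MemLp (fun q : ℤ → ℝ => Fn φ L q) 2 (P : Measure (ℤ → ℝ)) := by
      have : (fun q : ℤ → ℝ => Fn φ L q) = fun q =>
          ∑ k ∈ Finset.Icc (-((R * L : ℕ) : ℤ)) ((R * L : ℕ) : ℤ), φ (k / L) * (q k - 1) :=
        funext fun q => (e1 q).symm
      rw [this]
      exact memLp_finsetSum _ fun i _ => (h i).const_mul _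
    exact hm.integrable_sq
  have hmeas : MeasurableSet {q : ℤ → ℝ | Fn φ L q ≤ -1} :=
    measurableSet_le (Fn_cont hR hLp).measurable measurable_const
  have h5 : (P : Measure (ℤ → ℝ)).real {q | Fn φ L q ≤ -1} =
      ∫ q, ({q : ℤ → ℝ | Fn φ L q ≤ -1}.indicator fun _ => (1:ℝ)) q ∂(P : Measure (ℤ → ℝ)) := by
    rw [integral_indicator hmeas, setIntegral_const, smul_eq_mul, mul_one]
  rw [h5]
  refine integral_mono ((integrable_const (1:ℝ)).indicator hmeas) hint fun q => ?_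
  by_cases hq : q ∈ {q : ℤ → ℝ | Fn φ L q ≤ -1}
  · rw [Set.indicator_of_mem hq]
    have hq' : Fn φ L q ≤ -1 := hq
    show (1:ℝ) ≤ Fn φ L q ^ 2
    nlinarith
  · rw [Set.indicator_of_notMem hq]
    positivity

end Q172.Mem
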