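import Pool.Agent.Q172.Mem.G4

/-! The lower bound for the prediction norms. -/

set_option autoImplicit false

open Filter Topology Set MeasureTheory ProbabilityTheory

namespace Q172.Mem

open Q172.ZetaLim (seen shift IsLim lim_le map_shift integrable_of_bdd)
open Pool.Agent.Q278.GF (dl)

/-- a multiple which absorbs the logarithm -/
lemma absorb (a : ℝ) (ha : 0 ≤ a) : ∃ E : ℕ, 1 ≤ E ∧ a * (Real.log (2 * E) + 5) ^ 2 ≤ E := by
  obtain ⟨s, hs⟩ := exists_nat_ge (36 * a + 1)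
  have hs1 : (1:ℝ) ≤ s := by linarith
  have hs0 : (0:ℝ) < s := by linarith
  refine ⟨s ^ 4, Nat.one_le_pow _ _ (by exact_mod_cast hs1), ?_⟩
  push_cast
  have h1 : Real.log (2 * (s:ℝ) ^ 4) + 5 ≤ 6 * s := by
    rw [Real.log_mul (by norm_num) (by positivity), Real.log_pow]
    have := Real.log_le_sub_one_of_pos hs0
    have := Real.log_two_lt_d9
    push_cast
    linarith
  have h0 : 0 ≤ Real.log (2 * (s:ℝ) ^ 4) + 5 := by
    have : (1:ℝ) ≤ (s:ℝ) ^ 4 := one_le_pow₀ hs1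
    have := Real.log_nonneg (by linarith : (1:ℝ) ≤ 2 * (s:ℝ) ^ 4)
    linarith
  have h2 := pow_le_pow_left₀ h0 h1 2
  calc a * (Real.log (2 * (s:ℝ) ^ 4) + 5) ^ 2 ≤ a * (6 * s) ^ 2 := mul_le_mul_of_nonneg_left h2 ha
    _ = (36 * a) * s ^ 2 := by ring
    _ ≤ s * s ^ 2 := mul_le_mul_of_nonneg_right (by linarith) (by positivity)
    _ ≤ s * s ^ 2 * s := le_mul_of_one_le_right (by positivity) hs1
    _ = (s:ℝ) ^ 4 := by ring

lemma ceil_le_two {x : ℝ} (hx : 1 ≤ x) : (⌈x⌉₊ : ℝ) ≤ 2 * x := by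
  have := Nat.ceil_lt_add_one (a := x) (by linarith)
  linarith

/-- the choice of the two lengths -/
lemma lengths (R L0 : ℕ) (hR : 1 ≤ R) (hL0 : 1 ≤ L0) (A c : ℝ) (hA : 0 < A) (hc : 0 < c)
    (hc1 : c ≤ 1) : ∃ C : ℝ, 1 ≤ C ∧ ∀ n : ℕ, 1 ≤ n → ∃ L M : ℕ, L0 ≤ L ∧ n ≤ R * L ∧
      3 * (R * L) + 1 ≤ M ∧ n * (A * (1 + Real.log n) ^ 2) ≤ c ^ 2 * (R * L : ℕ) ∧
      (R * L : ℕ) * (A * (1 + Real.log (2 * M : ℕ)) ^ 2) ≤ c ^ 2 * M ∧
      ((2 * M : ℕ) : ℝ) ≤ C * n * (1 + Real.log n) ^ 4 := by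
  have hc2 : 0 < c ^ 2 := by positivity
  obtain ⟨E, hE1, hE⟩ := absorb (A / c ^ 2) (by positivity)
  have hEr : (1:ℝ) ≤ E := by exact_mod_cast hE1
  have hRr : (1:ℝ) ≤ R := by exact_mod_cast hR
  have hL0r : (1:ℝ) ≤ L0 := by exact_mod_cast hL0
  set a : ℝ := A / c ^ 2 + 1 with ha
  have ha1 : 1 ≤ a := by
    have : 0 < A / c ^ 2 := by positivity
    linarith
  set K1 : ℝ := R * L0 * (2 * a) with hK1
  have hK11 : 1 ≤ K1 := by
    have h1 : (1:ℝ) ≤ R * L0 := by nlinarith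
    nlinarith
  have hlK1 : 0 ≤ Real.log K1 := Real.log_nonneg hK11
  refine ⟨16 * E * K1 * (4 + Real.log K1) ^ 2, ?_, fun n hn => ?_⟩
  · have h1 : (1:ℝ) ≤ (4 + Real.log K1) ^ 2 := one_le_pow₀ (by linarith)
    have h2 : (1:ℝ) ≤ E * K1 := by nlinarith
    nlinarith
  have hnr : (1:ℝ) ≤ n := by exact_mod_cast hn
  have hn0 : (0:ℝ) < n := by linarith
  have hln : 0 ≤ Real.log n := Real.log_nonneg hnr
  set x : ℝ := (1 + Real.log n) ^ 2 with hx
  have hx1 : 1 ≤ x := one_le_pow₀ (by linarith)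
  set L : ℕ := L0 * n * ⌈a * x⌉₊ with hL
  have hax : 1 ≤ a * x := by nlinarith
  have hcl : a * x ≤ (⌈a * x⌉₊ : ℝ) := Nat.le_ceil _
  have hcl2 := ceil_le_two hax
  have hcl1 : 1 ≤ ⌈a * x⌉₊ := Nat.one_le_ceil_iff.2 (by linarith)
  set K : ℕ := R * L with hK
  have hLn : n ≤ L := by
    rw [hL]
    calc n = 1 * n * 1 := by ring
      _ ≤ L0 * n * ⌈a * x⌉₊ := Nat.mul_le_mul (Nat.mul_le_mul hL0 le_rfl) hcl1
  have hLL0 : L0 ≤ L := by
    rw [hL]
    calc L0 = L0 * 1 * 1 := by ring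
      _ ≤ L0 * n * ⌈a * x⌉₊ := Nat.mul_le_mul (Nat.mul_le_mul le_rfl hn) hcl1
  have hLK : L ≤ K := by
    rw [hK]
    exact Nat.le_mul_of_pos_left L (by omega)
  have hKn : n ≤ K := hLn.trans hLK
  have hK1n : 1 ≤ K := hn.trans hKn
  have hKr : (1:ℝ) ≤ K := by exact_mod_cast hK1n
  have hlK : 0 ≤ Real.log K := Real.log_nonneg hKr
  -- size of `K`
  have hKup : (K:ℝ) ≤ K1 * (n * x) := by
    have e1 : (K:ℝ) = R * L0 * n * (⌈a * x⌉₊ : ℝ) := by rw [hK, hL]; push_cast; ring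
    rw [e1, hK1]
    calc (R:ℝ) * L0 * n * (⌈a * x⌉₊ : ℝ) ≤ R * L0 * n * (2 * (a * x)) :=
          mul_le_mul_of_nonneg_left hcl2 (by positivity)
      _ = R * L0 * (2 * a) * (n * x) := by ring
  have hKlow : (n:ℝ) * (a * x) ≤ K := by
    have e1 : (K:ℝ) = (R * L0) * (n * (⌈a * x⌉₊ : ℝ)) := by rw [hK, hL]; push_cast; ring
    rw [e1]
    have h1 : (1:ℝ) ≤ R * L0 := by nlinarith
    have h2 : (n:ℝ) * (a * x) ≤ n * (⌈a * x⌉₊ : ℝ) := mul_le_mul_of_nonneg_left hcl hn0.le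
    have h3 : (0:ℝ) ≤ n * (⌈a * x⌉₊ : ℝ) := by positivity
    nlinarith
  have hlogK : 1 + Real.log K ≤ (4 + Real.log K1) * (1 + Real.log n) := by
    have h1 : Real.log K ≤ Real.log (K1 * (n * x)) := Real.log_le_log (by linarith) hKup
    have e : Real.log (K1 * (n * x)) = Real.log K1 + (Real.log n + 2 * Real.log (1 + Real.log n)) := by
      have e1 : Real.log (K1 * (n * x)) = Real.log K1 + Real.log (n * x) :=
        Real.log_mul (by linarith) (by positivity)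
      have e2 : Real.log (n * x) = Real.log n + Real.log x := Real.log_mul (by linarith) (by linarith)
      have e3 : Real.log x = 2 * Real.log (1 + Real.log n) := by
        rw [hx, Real.log_pow]; norm_num
      rw [e1, e2, e3]
    rw [e] at h1
    have h2 := Real.log_le_sub_one_of_pos (by linarith : 0 < 1 + Real.log n)
    nlinarith [mul_nonneg hlK1 hln]
  set y : ℝ := (1 + Real.log K) ^ 2 with hy
  have hy1 : 1 ≤ y := one_le_pow₀ (by linarith)
  have hcy := Nat.le_ceil y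
  have hcy2 := ceil_le_two hy1
  have hcy1 : 1 ≤ ⌈y⌉₊ := Nat.one_le_ceil_iff.2 (by linarith)
  set M : ℕ := 4 * E * K * ⌈y⌉₊ with hM
  have hMr : (M:ℝ) = 4 * E * K * (⌈y⌉₊ : ℝ) := by rw [hM]; push_cast; ring
  refine ⟨L, M, hLL0, hKn, ?_, ?_, ?_, ?_⟩
  · have h1 : 4 * K ≤ M := by
      rw [hM]
      calc 4 * K = 4 * 1 * K * 1 := by ring
        _ ≤ 4 * E * K * ⌈y⌉₊ := Nat.mul_le_mul (Nat.mul_le_mul (Nat.mul_le_mul le_rfl hE1) le_rfl) hcy1
    omega
  · have h1 : c ^ 2 * ((n:ℝ) * (a * x)) ≤ c ^ 2 * K := mul_le_mul_of_nonneg_left hKlow hc2.le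
    have h2 : c ^ 2 * ((n:ℝ) * (a * x)) = n * (A * x) + c ^ 2 * (n * x) := by
      rw [ha]; field_simp
    have h3 : 0 ≤ c ^ 2 * ((n:ℝ) * x) := by positivity
    linarith
  · have hlogM : 1 + Real.log (2 * M : ℕ) ≤ (Real.log (2 * E) + 5) * (1 + Real.log K) + 0 * 1 := by
      have h0 : ((2 * M : ℕ) : ℝ) ≤ 2 * E * (K * (8 * y)) := by
        push_cast
        rw [hMr]
        have : 2 * (4 * (E:ℝ) * K * (⌈y⌉₊ : ℝ)) ≤ 2 * (4 * (E:ℝ) * K * (2 * y)) := by gcongr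
        linarith
      have hM0 : (0:ℝ) < ((2 * M : ℕ) : ℝ) := by
        push_cast
        rw [hMr]
        positivity
      have h1 : Real.log ((2 * M : ℕ) : ℝ) ≤ Real.log (2 * E * (K * (8 * y))) := Real.log_le_log hM0 h0
      have h8 : Real.log 8 < 2.1 := by
        rw [show (8:ℝ) = 2 ^ 3 by norm_num, Real.log_pow]
        have := Real.log_two_lt_d9
        push_cast
        linarith
      have e : Real.log (2 * E * (K * (8 * y))) = Real.log (2 * E) + (Real.log K + (Real.log 8 +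
          2 * Real.log (1 + Real.log K))) := by
        have e1 : Real.log (2 * E * (K * (8 * y))) = Real.log (2 * E) + Real.log (K * (8 * y)) :=
          Real.log_mul (by positivity) (by positivity)
        have e2 : Real.log (K * (8 * y)) = Real.log K + Real.log (8 * y) :=
          Real.log_mul (by linarith) (by positivity)
        have e3 : Real.log (8 * y) = Real.log 8 + Real.log y := Real.log_mul (by norm_num) (by linarith)
        have e4 : Real.log y = 2 * Real.log (1 + Real.log K) := by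
          rw [hy, Real.log_pow]; norm_num
        rw [e1, e2, e3, e4]
      rw [e] at h1
      have h2 := Real.log_le_sub_one_of_pos (by linarith : 0 < 1 + Real.log K)
      have h3 : 0 ≤ Real.log (2 * (E:ℝ)) := Real.log_nonneg (by linarith)
      nlinarith [mul_nonneg h3 hlK]
    rw [zero_mul, add_zero] at hlogM
    have hM1 : (1:ℝ) ≤ ((2 * M : ℕ) : ℝ) := by
      have : 1 ≤ M := by
        rw [hM]
        exact Nat.mul_pos (Nat.mul_pos (by omega) hK1n) hcy1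
      exact_mod_cast (by omega : 1 ≤ 2 * M)
    have hlM : 0 ≤ Real.log ((2 * M : ℕ) : ℝ) := Real.log_nonneg hM1
    have h4 := pow_le_pow_left₀ (by linarith) hlogM 2
    rw [mul_pow] at h4
    have h5 : A * (1 + Real.log ((2 * M : ℕ) : ℝ)) ^ 2 ≤ c ^ 2 * E * y := by
      calc A * (1 + Real.log ((2 * M : ℕ) : ℝ)) ^ 2 ≤ A * ((Real.log (2 * E) + 5) ^ 2 * (1 + Real.log K) ^ 2) :=
            mul_le_mul_of_nonneg_left h4 hA.le
        _ = c ^ 2 * (A / c ^ 2 * (Real.log (2 * E) + 5) ^ 2) * y := by rw [hy]; field_simp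
        _ ≤ c ^ 2 * E * y := by
            apply mul_le_mul_of_nonneg_right _ (by linarith)
            exact mul_le_mul_of_nonneg_left hE hc2.le
    calc (K:ℝ) * (A * (1 + Real.log ((2 * M : ℕ) : ℝ)) ^ 2) ≤ K * (c ^ 2 * E * y) :=
          mul_le_mul_of_nonneg_left h5 (by positivity)
      _ ≤ K * (c ^ 2 * E * (⌈y⌉₊ : ℝ)) := by gcongr
      _ = c ^ 2 * (E * K * (⌈y⌉₊ : ℝ)) := by ring
      _ ≤ c ^ 2 * M := by
          apply mul_le_mul_of_nonneg_left _ hc2.le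
          rw [hMr]
          have : 0 ≤ (E:ℝ) * K * (⌈y⌉₊ : ℝ) := by positivity
          linarith
  · push_cast
    rw [hMr]
    have h1 : y ≤ (4 + Real.log K1) ^ 2 * x := by
      rw [hy, hx, ← mul_pow]
      exact pow_le_pow_left₀ (by linarith) hlogK 2
    calc 2 * (4 * (E:ℝ) * K * (⌈y⌉₊ : ℝ)) ≤ 2 * (4 * E * (K1 * (n * x)) * (2 * ((4 + Real.log K1) ^ 2 * x))) := by
          gcongr
          linarith
      _ = 16 * E * K1 * (4 + Real.log K1) ^ 2 * n * (x * x) := by ring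
      _ = 16 * E * K1 * (4 + Real.log K1) ^ 2 * n * (1 + Real.log n) ^ 4 := by rw [hx]; ring

/-- **the prediction norms decay at most like `1/n`** -/
theorem pred_low : ∃ c C : ℝ, 0 < c ∧ 1 ≤ C ∧ ∀ P : ProbabilityMeasure (ℤ → ℝ), IsLim (seen dl) P →
    ∀ h : ∀ k : ℤ, MemLp (fun q : ℤ → ℝ => q k - 1) 2 (P : Measure (ℤ → ℝ)), ∀ n : ℕ, 1 ≤ n →
      ∃ m : ℕ, n ≤ m ∧ (m : ℝ) ≤ C * n * (1 + Real.log n) ^ 4 ∧
        c / m ≤ g (QQ (ee h)) (ee h) m := by
  obtain ⟨φ, B, R, hφ1, hφ2, hφ0, hR1, hB0, hφb, hφs, hφl⟩ := test_fn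
  obtain ⟨δ, L0, hδ, hL0, hlow⟩ := low_var hφ1 hφ2 hφ0 hφs
  obtain ⟨A, hA, hblk⟩ := blk_norm
  set D : ℝ := 9 + 1600 * (R * B) ^ 2 with hD
  have hD0 : 0 < D := by positivity
  obtain ⟨c, hc, hc1, hcD⟩ : ∃ c : ℝ, 0 < c ∧ c ≤ 1 ∧ c ^ 2 * D < δ := by
    refine ⟨min 1 (√(δ / (2 * D))), by positivity, min_le_left _ _, ?_⟩
    have h1 : (min 1 (√(δ / (2 * D)))) ^ 2 ≤ δ / (2 * D) := by
      have h2 : (min 1 (√(δ / (2 * D)))) ^ 2 ≤ (√(δ / (2 * D))) ^ 2 :=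
        pow_le_pow_left₀ (by positivity) (min_le_right _ _) 2
      rwa [Real.sq_sqrt (by positivity)] at h2
    calc (min 1 (√(δ / (2 * D)))) ^ 2 * D ≤ δ / (2 * D) * D := mul_le_mul_of_nonneg_right h1 hD0.le
      _ = δ / 2 := by field_simp
      _ < δ := by linarith
  obtain ⟨C, hC, hlen⟩ := lengths R L0 hR1 hL0 A c hA hc hc1
  refine ⟨c, C, hc, hC, fun P hP h n hn => ?_⟩
  obtain ⟨L, M, hL, hnK, hKM, i1, i2, i3⟩ := hlen n hn
  by_contra hcon
  push Not at hcon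
  have F := filtP (map_shift hP) h
  have hg : ∀ m, n ≤ m → m ≤ 2 * M → g (QQ (ee h)) (ee h) m ≤ c / m := by
    intro m h1 h2
    refine (hcon m h1 ?_).le
    have : (m:ℝ) ≤ ((2 * M : ℕ) : ℝ) := by exact_mod_cast h2
    linarith
  have hLp : 1 ≤ L := hL0.trans hL
  have hLr : (0:ℝ) < L := by exact_mod_cast hLp
  have h1 := F.Y_small hc.le hn hnK hg hKM (hblk P hP h n hn) (hblk P hP h (2 * M) (by omega)) i1 i2
    (f := fun k : ℤ => φ (k / L)) (b := B / L) (B := 1) (fun k hk => by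
      refine hφs _ ?_
      rw [abs_div, abs_of_pos hLr, le_div_iff₀ hLr]
      have : (((R * L : ℕ) : ℤ) : ℝ) < ((|k| : ℤ) : ℝ) := by exact_mod_cast hk
      push_cast at this
      exact this.le) (fun k => by
      refine (hφl _ _).trans (le_of_eq ?_)
      push_cast
      rw [← sub_div, add_sub_cancel_left, abs_div, abs_one, abs_of_pos hLr]
      ring) (fun k => hφb _)
  have h2 := hlow L hL P hP h
  have h3 : ((R * L : ℕ) : ℝ) * (B / L) = R * B := by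
    push_cast
    field_simp
  rw [h3] at h1
  have h4 : 9 * (1:ℝ) ^ 2 * c ^ 2 + 1600 * (R * B) ^ 2 * c ^ 2 = c ^ 2 * D := by rw [hD]; ring
  linarith

end Q172.Mem
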