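import Pool.Agent.Q172.Mem.G5

/-! The alternative hypothesis and the limit processes. -/

set_option autoImplicit false

open Filter Topology Set MeasureTheory ProbabilityTheory

namespace Q172.Mem

open Q172.ZetaLim (seen shift IsLim lim_le map_shift integrable_of_bdd)
open Pool.Agent.Q278.GF (dl)
open SG (ord NZ)

/-- the spacing in the other normalisation -/
noncomputable def dd (j : ℕ) : ℝ :=
  1 / (2 * Real.pi) * ord (j + 1) * Real.log (ord (j + 1)) - 1 / (2 * Real.pi) * ord j * Real.log (ord j)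

lemma dd_dl : ∃ n0 : ℕ, 1 ≤ n0 ∧ ∀ n, n0 ≤ n → |dd n - dl n| ≤ ord (n + 1) - ord n := by
  obtain ⟨T0, hT0, hsucc⟩ := LG.CU.ord_succ_le
  obtain ⟨n1, hn1⟩ := (SG.ord_tendsto.eventually_ge_atTop T0).exists_forall_of_atTop
  refine ⟨max 1 n1, le_max_left _ _, fun n hn => ?_⟩
  have h1 : 1 ≤ n := (le_max_left _ _).trans hn
  have h2 := hn1 n ((le_max_right _ _).trans hn)
  have h3 := hsucc n h1 h2
  have h4 := SG.ord_mono h1 (Nat.le_succ n)
  have hpi := Real.pi_gt_three
  have hpi2 := Real.pi_lt_d2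
  set a := ord n with ha
  set b := ord (n + 1) with hb
  have ha0 : 0 < a := by linarith
  have hb0 : 0 < b := by linarith
  have e1 : dd n - dl n = (b * (Real.log b - Real.log a) + (b - a) * Real.log (2 * Real.pi)) /
      (2 * Real.pi) := by
    unfold dd dl
    rw [← ha, ← hb, Real.log_div ha0.ne' (by positivity)]
    field_simp
    ring
  have h5 : 0 ≤ Real.log b - Real.log a := sub_nonneg.2 (Real.log_le_log ha0 h4)
  have h6 : Real.log b - Real.log a ≤ (b - a) / a := by
    rw [← Real.log_div hb0.ne' ha0.ne']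
    have := Real.log_le_sub_one_of_pos (div_pos hb0 ha0)
    rwa [show b / a - 1 = (b - a) / a by field_simp] at this
  have h7 : 0 ≤ Real.log (2 * Real.pi) := Real.log_nonneg (by linarith)
  have h8 : Real.log (2 * Real.pi) ≤ 3 := by
    rw [Real.log_le_iff_le_exp (by positivity)]
    have := Real.add_one_le_exp (1:ℝ)
    have h9 : Real.exp 3 = Real.exp 1 ^ 3 := by rw [← Real.exp_nat_mul]; norm_num
    rw [h9]
    have h10 : (2:ℝ) ^ 3 ≤ Real.exp 1 ^ 3 := pow_le_pow_left₀ (by norm_num) (by linarith) 3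
    linarith
  have h9 : b * (Real.log b - Real.log a) ≤ 2 * (b - a) := by
    calc b * (Real.log b - Real.log a) ≤ b * ((b - a) / a) := mul_le_mul_of_nonneg_left h6 hb0.le
      _ ≤ (2 * a) * ((b - a) / a) := mul_le_mul_of_nonneg_right h3 (div_nonneg (by linarith) ha0.le)
      _ = 2 * (b - a) := by field_simp
  have h10 : 0 ≤ b - a := by linarith
  rw [e1, abs_of_nonneg (div_nonneg (by positivity) (by positivity)), div_le_iff₀ (by positivity)]
  nlinarith

lemma gap_small {A : ℝ} (hA : 0 < A) : ∀ᶠ n : ℕ in atTop,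
    ord (n + 1) - ord n ≤ 7 / A * (1 + |dl n - 1|) := by
  have hpi := Real.pi_gt_three
  have hpi2 := Real.pi_lt_d2
  filter_upwards [SG.ord_tendsto.eventually_ge_atTop (2 * Real.pi * Real.exp A),
    eventually_ge_atTop 1] with n h1 hn
  have h0 : 0 < ord n := lt_of_lt_of_le (by positivity) h1
  have h2 : A ≤ Real.log (ord n / (2 * Real.pi)) := by
    rw [Real.le_log_iff_exp_le (by positivity), le_div_iff₀ (by positivity)]
    linarith
  have h3 := SG.ord_mono hn (Nat.le_succ n)
  have e1 : dl n = (ord (n + 1) - ord n) / (2 * Real.pi) * Real.log (ord n / (2 * Real.pi)) := rfl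
  have h4 : (ord (n + 1) - ord n) / (2 * Real.pi) * A ≤ 1 + |dl n - 1| := by
    have h5 : (ord (n + 1) - ord n) / (2 * Real.pi) * A ≤
        (ord (n + 1) - ord n) / (2 * Real.pi) * Real.log (ord n / (2 * Real.pi)) :=
      mul_le_mul_of_nonneg_left h2 (div_nonneg (by linarith) (by positivity))
    have := le_abs_self (dl n - 1)
    linarith
  rw [div_mul_eq_mul_div, div_le_iff₀ (by positivity)] at h4
  rw [div_mul_eq_mul_div, le_div_iff₀ hA]
  have h6 : 0 ≤ 1 + |dl n - 1| := by positivity
  nlinarith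

/-- the positive half-integers -/
def HS : Set ℝ := {x | ∃ m : ℕ, 1 ≤ m ∧ x = (m : ℝ) / 2}

lemma HS_closed : IsClosed HS := by
  have h1 : IsClosed (Set.range (Int.cast : ℤ → ℝ)) := Int.isClosedEmbedding_coe_real.isClosed_range
  have h2 : HS = (fun x : ℝ => 2 * x) ⁻¹' (Set.range (Int.cast : ℤ → ℝ)) ∩ Set.Ici (1 / 2 : ℝ) := by
    ext x
    constructor
    · rintro ⟨m, hm, rfl⟩
      have hm' : (1:ℝ) ≤ m := by exact_mod_cast hm
      refine ⟨⟨(m : ℤ), by push_cast; ring⟩, ?_⟩
      rw [Set.mem_Ici]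
      linarith
    · rintro ⟨⟨k, hk⟩, hx⟩
      rw [Set.mem_Ici] at hx
      have hk1 : (1:ℝ) ≤ (k:ℝ) := by
        have : (k:ℝ) = 2 * x := hk
        linarith
      have hk2 : 1 ≤ k := by exact_mod_cast hk1
      refine ⟨k.toNat, by omega, ?_⟩
      have h3 : ((k.toNat : ℕ) : ℝ) = (k:ℝ) := by
        have : ((k.toNat : ℕ) : ℤ) = k := Int.toNat_of_nonneg (by omega)
        exact_mod_cast this
      rw [h3]
      have : (k:ℝ) = 2 * x := hk
      linarith
  rw [h2]
  exact (h1.preimage (by fun_prop)).inter isClosed_Ici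

lemma HS_ne : HS.Nonempty := ⟨1 / 2, 1, le_rfl, by norm_num⟩

/-- under the alternative hypothesis the limit processes take values in the half-integers -/
theorem half (hAH : ∀ ε : ℝ, 0 < ε → ∀ᶠ j : ℕ in atTop, ∃ m : ℕ, 1 ≤ m ∧ |dd j - (m : ℝ) / 2| < ε)
    {P : ProbabilityMeasure (ℤ → ℝ)} (hP : IsLim (seen dl) P) :
    ∀ᵐ q ∂(P : Measure (ℤ → ℝ)), ∀ k : ℤ, ∃ m : ℕ, 1 ≤ m ∧ q k = (m : ℝ) / 2 := by
  obtain ⟨n0, hn0, hdd⟩ := dd_dl
  obtain ⟨C1, hC1, hmean⟩ := Pool.Agent.Q276.LR.mean_dev
  have hF : Continuous fun x : ℝ => min 1 (Metric.infDist x HS) :=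
    continuous_const.min (Metric.continuous_infDist_pt HS)
  have hF0 : ∀ x : ℝ, 0 ≤ min 1 (Metric.infDist x HS) := fun x => le_min zero_le_one Metric.infDist_nonneg
  have hFq : Continuous fun q : ℤ → ℝ => min 1 (Metric.infDist (q 0) HS) := hF.comp (continuous_apply 0)
  have key : ∫ q, min 1 (Metric.infDist (q 0) HS) ∂(P : Measure (ℤ → ℝ)) ≤ 0 := by
    refine lim_le hP hFq (M := 1) (fun q => ?_) fun ε hε => ?_
    · rw [abs_of_nonneg (hF0 _)]
      exact min_le_left _ _
    · set A : ℝ := 28 * (1 + C1) / ε with hA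
      have hA0 : 0 < A := by positivity
      obtain ⟨n1, hn1⟩ := ((hAH (ε / 2) (by positivity)).and (gap_small hA0)).exists_forall_of_atTop
      have hpt : ∀ n, max n0 n1 ≤ n → min 1 (Metric.infDist (seen dl n 0) HS) ≤
          ε / 2 + 7 / A * (1 + |dl n - 1|) := by
        intro n hn
        have b1 : n0 ≤ n := (le_max_left _ _).trans hn
        obtain ⟨⟨m, hm, hm2⟩, b2⟩ := hn1 n ((le_max_right _ _).trans hn)
        have b3 := hdd n b1
        have b4 := Q172.ZetaLim.seen_add dl n 0 (hn0.trans b1)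
        rw [Nat.cast_zero, add_zero] at b4
        rw [b4]
        refine (min_le_right _ _).trans ?_
        have b5 : Metric.infDist (dl n) HS ≤ dist (dl n) ((m:ℝ) / 2) :=
          Metric.infDist_le_dist_of_mem ⟨m, hm, rfl⟩
        have b6 : dist (dl n) ((m:ℝ) / 2) ≤ |dd n - dl n| + |dd n - (m:ℝ) / 2| := by
          rw [Real.dist_eq]
          have := abs_sub_le (dl n) (dd n) ((m:ℝ) / 2)
          rwa [abs_sub_comm (dl n) (dd n)] at this
        linarith
      set m := max n0 n1 with hm
      have hN : Tendsto (fun N : ℕ => (N : ℝ)) atTop atTop := tendsto_natCast_atTop_atTop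
      filter_upwards [hmean, hN.eventually_ge_atTop (4 * m / ε)] with N h1 h2
      have h3 : ∀ n ∈ Finset.Icc 1 N, min 1 (Metric.infDist (seen dl n 0) HS) ≤
          (ε / 2 + 7 / A * (1 + |dl n - 1|)) + (if n < m then 1 else 0) := by
        intro n _
        have c1 : 0 ≤ ε / 2 + 7 / A * (1 + |dl n - 1|) := by positivity
        by_cases hnm : n < m
        · rw [if_pos hnm]
          have := min_le_left 1 (Metric.infDist (seen dl n 0) HS)
          linarith
        · rw [if_neg hnm, add_zero]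
          exact hpt n (by omega)
      refine (Finset.sum_le_sum h3).trans ?_
      rw [Finset.sum_add_distrib, Finset.sum_add_distrib, ← Finset.mul_sum, Finset.sum_add_distrib,
        Finset.sum_const, Finset.sum_const, Nat.card_Icc, Nat.add_sub_cancel, nsmul_eq_mul,
        nsmul_eq_mul, mul_one]
      have h4 : ∑ n ∈ Finset.Icc 1 N, (if n < m then (1:ℝ) else 0) ≤ m := by
        rw [← Finset.sum_filter, Finset.sum_const, nsmul_eq_mul, mul_one]
        have : (Finset.Icc 1 N).filter (fun n => n < m) ⊆ Finset.range m := by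
          intro x hx
          rw [Finset.mem_filter] at hx
          exact Finset.mem_range.2 hx.2
        have := Finset.card_le_card this
        rw [Finset.card_range] at this
        exact_mod_cast this
      have h5 : ∑ n ∈ Finset.Icc 1 N, |dl n - 1| ≤ C1 * N := h1
      have h6 : 7 / A * (N + ∑ n ∈ Finset.Icc 1 N, |dl n - 1|) ≤ 7 / A * (N + C1 * N) :=
        mul_le_mul_of_nonneg_left (by linarith) (by positivity)
      have h7 : 7 / A * (N + C1 * N) = ε / 4 * N := by
        rw [hA]
        field_simp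
        ring
      rw [div_le_iff₀ hε] at h2
      linarith
  have hint : Integrable (fun q : ℤ → ℝ => min 1 (Metric.infDist (q 0) HS)) (P : Measure (ℤ → ℝ)) :=
    integrable_of_bdd P hFq.measurable (C := 1) fun q => by
      rw [abs_of_nonneg (hF0 _)]
      exact min_le_left _ _
  have hz : ∫ q, min 1 (Metric.infDist (q 0) HS) ∂(P : Measure (ℤ → ℝ)) = 0 :=
    le_antisymm key (integral_nonneg fun q => hF0 _)
  refine ae_all_iff.2 fun k => ?_
  have hk : ∫ q, min 1 (Metric.infDist (q k) HS) ∂(P : Measure (ℤ → ℝ)) = 0 := by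
    rw [int_stat (map_shift hP) hF k]
    exact hz
  have hik := integrable_stat (map_shift hP) hF hint k
  have h0 := (integral_eq_zero_iff_of_nonneg (f := fun q : ℤ → ℝ => min 1 (Metric.infDist (q k) HS))
    (fun q => hF0 _) hik).1 hk
  filter_upwards [h0] with q hq
  have hq' : min 1 (Metric.infDist (q k) HS) = 0 := hq
  have h1 : Metric.infDist (q k) HS = 0 := by
    rcases min_choice 1 (Metric.infDist (q k) HS) with h | h
    · rw [h] at hq'
      exact absurd hq' one_ne_zero
    · rw [← h, hq']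
  exact (HS_closed.mem_iff_infDist_zero HS_ne).2 h1

end Q172.Mem
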