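import Mathlib

/-! Linear prediction in a Hilbert space: an abstract filtration of projections with a shift. -/

set_option autoImplicit false

namespace Q172.Mem

open Finset
open scoped RealInnerProductSpace

variable {H : Type*} [NormedAddCommGroup H] [InnerProductSpace ℝ H]

/-- an increasing family of orthogonal projections, moved by the isometry `U` -/
structure Filt (Q : ℤ → H →L[ℝ] H) (U : H →ₗᵢ[ℝ] H) (e : ℤ → H) : Prop where
  sym : ∀ j x y, ⟪Q j x, y⟫ = ⟪x, Q j y⟫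
  low : ∀ i j, i ≤ j → ∀ x, Q i (Q j x) = Q i x
  up : ∀ i j, i ≤ j → ∀ x, Q j (Q i x) = Q i x
  mem : ∀ j k, k ≤ j → Q j (e k) = e k
  shift : ∀ j x, Q (j + 1) (U x) = U (Q j x)
  Ue : ∀ k, U (e k) = e (k + 1)

variable {Q : ℤ → H →L[ℝ] H} {U : H →ₗᵢ[ℝ] H} {e : ℤ → H}

/-- the innovation -/
noncomputable def D (Q : ℤ → H →L[ℝ] H) (j : ℤ) (x : H) : H := Q j x - Q (j - 1) x

/-- the prediction norm -/
noncomputable def g (Q : ℤ → H →L[ℝ] H) (e : ℤ → H) (m : ℕ) : ℝ := ‖Q 0 (e m)‖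

/-- partial sums of innovations -/
noncomputable def s (Q : ℤ → H →L[ℝ] H) (e : ℤ → H) (j : ℤ) (m : ℕ) : H :=
  D Q j (∑ i ∈ range m, e (j + i))

lemma D_smul (j : ℤ) (a : ℝ) (x : H) : D Q j (a • x) = a • D Q j x := by
  unfold D
  rw [map_smul, map_smul, smul_sub]

lemma D_sum {ι : Type*} (S : Finset ι) (j : ℤ) (x : ι → H) :
    D Q j (∑ i ∈ S, x i) = ∑ i ∈ S, D Q j (x i) := by
  unfold D
  rw [map_sum, map_sum, ← Finset.sum_sub_distrib]

lemma le_of_sq {a b : ℝ} (hb : 0 ≤ b) (h : a ^ 2 ≤ b ^ 2) : a ≤ b :=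
  (le_abs_self a).trans (abs_le_of_sq_le_sq h hb)

lemma s_succ (j : ℤ) (m : ℕ) : s Q e j (m + 1) = s Q e j m + D Q j (e (j + m)) := by
  unfold s
  rw [D_sum, D_sum, Finset.sum_range_succ]

lemma s_zero (j : ℤ) : s Q e j 0 = 0 := by
  unfold s
  rw [D_sum]
  simp

lemma g_nonneg (m : ℕ) : 0 ≤ g Q e m := norm_nonneg _

namespace Filt

lemma D_sq (F : Filt Q U e) (j : ℤ) (x : H) : ‖D Q j x‖ ^ 2 = ‖Q j x‖ ^ 2 - ‖Q (j - 1) x‖ ^ 2 := by
  have h1 : ⟪Q j x, Q (j - 1) x⟫ = ⟪x, Q (j - 1) x⟫ := by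
    rw [F.sym, F.up (j - 1) j (by omega)]
  have h2 : ‖Q (j - 1) x‖ ^ 2 = ⟪x, Q (j - 1) x⟫ := by
    rw [← real_inner_self_eq_norm_sq, F.sym, F.low (j - 1) (j - 1) le_rfl]
  unfold D
  rw [norm_sub_sq_real, h1, ← h2]
  ring

lemma Q_mono (F : Filt Q U e) (j : ℤ) (x : H) : ‖Q (j - 1) x‖ ≤ ‖Q j x‖ := by
  have h1 := F.D_sq j x
  have h2 := sq_nonneg ‖D Q j x‖
  exact le_of_sq (norm_nonneg _) (by linarith)

lemma Q_le (F : Filt Q U e) (j : ℤ) (x : H) : ‖Q j x‖ ≤ ‖x‖ := by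
  have h2 : ‖Q j x‖ ^ 2 = ⟪x, Q j x⟫ := by
    rw [← real_inner_self_eq_norm_sq, F.sym, F.low j j le_rfl]
  have h3 := real_inner_le_norm x (Q j x)
  rcases eq_or_lt_of_le (norm_nonneg (Q j x)) with h | h
  · rw [← h]; exact norm_nonneg _
  · have : ‖Q j x‖ * ‖Q j x‖ ≤ ‖x‖ * ‖Q j x‖ := by rw [← pow_two, h2]; exact h3
    exact le_of_mul_le_mul_right this h

lemma D_shift (F : Filt Q U e) (j : ℤ) (x : H) : D Q (j + 1) (U x) = U (D Q j x) := by
  unfold D
  rw [map_sub, F.shift, show j + 1 - 1 = (j - 1) + 1 by ring, F.shift]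

lemma norm_step (F : Filt Q U e) (m : ℕ) (j : ℤ) :
    ‖Q (j + 1) (e (j + 1 + m))‖ = ‖Q j (e (j + m))‖ := by
  rw [show e (j + 1 + m) = U (e (j + m)) by rw [F.Ue]; congr 1; ring, F.shift, U.norm_map]

/-- stationarity of the prediction norms -/
lemma norm_Q (F : Filt Q U e) (m : ℕ) (j : ℤ) : ‖Q j (e (j + m))‖ = g Q e m := by
  unfold g
  induction j using Int.induction_on with
  | zero => rw [zero_add]
  | succ j ih => rw [F.norm_step m j, ih]
  | pred j ih =>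
    have := F.norm_step m (-(j : ℤ) - 1)
    rw [sub_add_cancel] at this
    rw [← this, ih]

lemma s_step (F : Filt Q U e) (m : ℕ) (j : ℤ) : s Q e (j + 1) m = U (s Q e j m) := by
  unfold s
  rw [← F.D_shift, map_sum]
  congr 1
  refine Finset.sum_congr rfl fun i _ => ?_
  rw [F.Ue]
  congr 1
  ring

/-- stationarity of the partial sums -/
lemma norm_s (F : Filt Q U e) (m : ℕ) (j : ℤ) : ‖s Q e j m‖ = ‖s Q e 0 m‖ := by
  induction j using Int.induction_on with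
  | zero => rfl
  | succ j ih => rw [F.s_step, U.norm_map, ih]
  | pred j ih =>
    have := F.s_step m (-(j : ℤ) - 1)
    rw [sub_add_cancel] at this
    rw [← ih, this, U.norm_map]

lemma g_anti (F : Filt Q U e) : Antitone (g Q e) := by
  refine antitone_nat_of_succ_le fun m => ?_
  have h1 := F.norm_Q (m + 1) (-1)
  rw [show (-1 : ℤ) + ((m + 1 : ℕ) : ℤ) = m by push_cast; ring] at h1
  rw [← h1]
  have := F.Q_mono 0 (e m)
  rw [zero_sub] at this
  exact this

lemma w_sq (F : Filt Q U e) (i : ℕ) : ‖D Q 0 (e i)‖ ^ 2 = g Q e i ^ 2 - g Q e (i + 1) ^ 2 := by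
  have h1 := F.norm_Q (i + 1) (-1)
  rw [show (-1 : ℤ) + ((i + 1 : ℕ) : ℤ) = i by push_cast; ring] at h1
  rw [F.D_sq, zero_sub, h1]
  rfl

lemma w_sum_sq (F : Filt Q U e) {a b : ℕ} (hab : a ≤ b) :
    ∑ i ∈ Ico a b, ‖D Q 0 (e i)‖ ^ 2 = g Q e a ^ 2 - g Q e b ^ 2 := by
  induction b, hab using Nat.le_induction with
  | base => simp
  | succ b hab ih =>
    rw [Finset.sum_Ico_succ_top hab, ih, F.w_sq]
    ring

/-- sums of the innovations over a block -/
lemma w_block (F : Filt Q U e) {a b : ℕ} (hab : a ≤ b) :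
    ∑ i ∈ Ico a b, ‖D Q 0 (e i)‖ ≤ √((b : ℝ) - a) * g Q e a := by
  refine le_of_sq (mul_nonneg (Real.sqrt_nonneg _) (g_nonneg a)) ?_
  have h0 : (0 : ℝ) ≤ (b : ℝ) - a := by
    have : (a : ℝ) ≤ b := by exact_mod_cast hab
    linarith
  have h1 := sq_sum_le_card_mul_sum_sq (s := Ico a b) (f := fun i : ℕ => ‖D Q 0 (e i)‖)
  rw [Nat.card_Ico, F.w_sum_sq hab, Nat.cast_sub hab] at h1
  rw [mul_pow, Real.sq_sqrt h0]
  refine h1.trans (mul_le_mul_of_nonneg_left ?_ h0)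
  nlinarith [sq_nonneg (g Q e b)]

/-- the tail of the innovations -/
lemma w_tail (F : Filt Q U e) {c : ℝ} (hc : 0 ≤ c) {n M : ℕ} (hn : 1 ≤ n)
    (hg : ∀ m, n ≤ m → m ≤ M → g Q e m ≤ c / m) :
    ∀ (l m : ℕ), n ≤ m → m + l ≤ M + 1 → ∑ i ∈ Ico m (m + l), ‖D Q 0 (e i)‖ ≤ 4 * c / √m := by
  intro l
  induction l using Nat.strong_induction_on with
  | _ l ih =>
    intro m hm hl
    have hm1 : (1 : ℝ) ≤ m := by exact_mod_cast hn.trans hm
    have hm0 : (0 : ℝ) < m := by linarith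
    have hs : 0 < √(m : ℝ) := Real.sqrt_pos.2 hm0
    rcases Nat.eq_zero_or_pos l with h0 | h0
    · subst h0
      simp only [add_zero, Finset.Ico_self, Finset.sum_empty]
      positivity
    have hgm : g Q e m ≤ c / m := hg m hm (by omega)
    have hss : √(m : ℝ) * √m = m := Real.mul_self_sqrt hm0.le
    have hblock : √(m : ℝ) * g Q e m ≤ c / √m := by
      rw [le_div_iff₀ hs]
      calc √(m : ℝ) * g Q e m * √m = m * g Q e m := by rw [mul_right_comm, hss]
        _ ≤ m * (c / m) := mul_le_mul_of_nonneg_left hgm hm0.le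
        _ = c := by field_simp
    rcases le_or_gt l m with h1 | h1
    · refine (F.w_block (Nat.le_add_right m l)).trans ?_
      have h2 : √(((m + l : ℕ) : ℝ) - m) ≤ √m := by
        apply Real.sqrt_le_sqrt
        push_cast
        have : (l : ℝ) ≤ m := by exact_mod_cast h1
        linarith
      calc √(((m + l : ℕ) : ℝ) - m) * g Q e m ≤ √m * g Q e m :=
            mul_le_mul_of_nonneg_right h2 (g_nonneg m)
        _ ≤ c / √m := hblock
        _ ≤ 4 * c / √m := by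
            apply div_le_div_of_nonneg_right _ hs.le
            linarith
    · have h2 := ih (l - m) (by omega) (m + m) (by omega) (by omega)
      rw [show m + m + (l - m) = m + l by omega] at h2
      rw [← Finset.sum_Ico_consecutive _ (show m ≤ m + m by omega) (show m + m ≤ m + l by omega)]
      have h3 := F.w_block (Nat.le_add_right m m)
      have e3 : √(((m + m : ℕ) : ℝ) - m) = √m := by
        congr 1
        push_cast
        ring
      rw [e3] at h3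
      have h4 : √((m + m : ℕ) : ℝ) = √2 * √m := by
        rw [← Real.sqrt_mul (by norm_num)]
        congr 1
        push_cast
        ring
      rw [h4] at h2
      have h5 : (1.4 : ℝ) ≤ √2 := by
        apply Real.le_sqrt_of_sq_le
        norm_num
      have h6 : 4 * c / (√2 * √m) ≤ 3 * c / √m := by
        rw [div_le_div_iff₀ (by positivity) hs]
        nlinarith [mul_nonneg hc hs.le]
      have h7 : c / √m + 3 * c / √m = 4 * c / √m := by ring
      linarith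

/-- the partial sums grow little between two indices -/
lemma s_diff (F : Filt Q U e) {c : ℝ} (hc : 0 ≤ c) {n M : ℕ} (hn : 1 ≤ n)
    (hg : ∀ m, n ≤ m → m ≤ M → g Q e m ≤ c / m) {m m1 : ℕ} (hm : n ≤ m) (hm1 : m ≤ m1)
    (hM : m1 ≤ M + 1) : ‖s Q e 0 m‖ ≤ ‖s Q e 0 m1‖ + 4 * c / √m := by
  have h1 : s Q e 0 m1 = s Q e 0 m + ∑ i ∈ Ico m m1, D Q 0 (e i) := by
    clear hM
    induction m1, hm1 using Nat.le_induction with
    | base => simp
    | succ k hk ih =>
      rw [s_succ, ih, Finset.sum_Ico_succ_top hk, zero_add]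
      abel
  have h2 : ‖∑ i ∈ Ico m m1, D Q 0 (e i)‖ ≤ 4 * c / √m := by
    refine (norm_sum_le _ _).trans ?_
    have := F.w_tail hc hn hg (m1 - m) m hm (by omega)
    rwa [Nat.add_sub_cancel' hm1] at this
  have h3 : s Q e 0 m = s Q e 0 m1 - ∑ i ∈ Ico m m1, D Q 0 (e i) := by rw [h1]; abel
  rw [h3]
  exact (norm_sub_le _ _).trans (by linarith)

lemma D_zero (F : Filt Q U e) {j k : ℤ} (h : k < j) : D Q j (e k) = 0 := by
  unfold D
  rw [F.mem j k h.le, F.mem (j - 1) k (by omega), sub_self]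

/-- telescoping -/
lemma tele (F : Filt Q U e) (x : H) (a : ℤ) (l : ℕ) :
    ‖Q (a + l) x‖ ^ 2 = ‖Q a x‖ ^ 2 + ∑ i ∈ range l, ‖D Q (a + i + 1) x‖ ^ 2 := by
  induction l with
  | zero => simp
  | succ l ih =>
    rw [Finset.sum_range_succ, ← add_assoc, ← ih, F.D_sq]
    push_cast
    rw [show a + (l : ℤ) + 1 - 1 = a + l by ring, show a + ((l : ℤ) + 1) = a + l + 1 by ring]
    ring

/-- the partial sums are controlled by the variance of the block -/
lemma s_energy (F : Filt Q U e) (L : ℕ) :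
    ∑ m ∈ Icc 1 L, ‖s Q e 0 m‖ ^ 2 ≤ ‖∑ i ∈ range L, e i‖ ^ 2 := by
  set S := ∑ i ∈ range L, e (i : ℤ) with hS
  have h1 := F.tele S (-1) L
  have h2 : ‖Q (-1 + (L : ℤ)) S‖ ^ 2 ≤ ‖S‖ ^ 2 := pow_le_pow_left₀ (norm_nonneg _) (F.Q_le _ _) 2
  have h3 : ∀ i ∈ range L, ‖D Q (-1 + (i : ℤ) + 1) S‖ ^ 2 = ‖s Q e 0 (L - i)‖ ^ 2 := by
    intro i hi
    rw [Finset.mem_range] at hi
    rw [show (-1 : ℤ) + i + 1 = i by ring, ← F.norm_s (L - i) i]
    congr 2
    unfold s
    rw [hS, D_sum, D_sum]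
    rw [← Finset.sum_range_add_sum_Ico _ hi.le]
    rw [Finset.sum_eq_zero (s := range i) fun k hk => F.D_zero (by
      rw [Finset.mem_range] at hk; exact_mod_cast hk), zero_add, Finset.sum_Ico_eq_sum_range]
    refine Finset.sum_congr rfl fun k _ => ?_
    push_cast
    rfl
  rw [Finset.sum_congr rfl h3] at h1
  have h4 : ∑ m ∈ Icc 1 L, ‖s Q e 0 m‖ ^ 2 = ∑ i ∈ range L, ‖s Q e 0 (L - i)‖ ^ 2 := by
    have e1 : Icc 1 L = Ico 1 (L + 1) := by ext x; rw [Finset.mem_Icc, Finset.mem_Ico]; omega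
    rw [e1, Finset.sum_Ico_eq_sum_range, Nat.add_sub_cancel, ← Finset.sum_range_reflect]
    refine Finset.sum_congr rfl fun i hi => ?_
    rw [Finset.mem_range] at hi
    rw [show 1 + (L - 1 - i) = L - i by omega]
  have h5 := sq_nonneg ‖Q (-1) S‖
  rw [h4]
  linarith

end Filt
end Q172.Mem
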