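import Pool.Agent.Q172.Mem.H1

/-! Small prediction norms force small variances of smooth linear statistics. -/

set_option autoImplicit false

namespace Q172.Mem

open Finset
open scoped RealInnerProductSpace

variable {H : Type*} [NormedAddCommGroup H] [InnerProductSpace ℝ H]
variable {Q : ℤ → H →L[ℝ] H} {U : H →ₗᵢ[ℝ] H} {e : ℤ → H}

/-- the linear statistic -/
noncomputable def Y (e : ℤ → H) (f : ℤ → ℝ) (K : ℕ) : H := ∑ k ∈ Icc (-(K : ℤ)) K, f k • e k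

/-- summation by parts -/
lemma abel_s (f : ℤ → ℝ) (j : ℤ) (N : ℕ) :
    ∑ i ∈ range N, f (j + i) • D Q j (e (j + i)) =
      f (j + N) • s Q e j N - ∑ i ∈ range N, (f (j + i + 1) - f (j + i)) • s Q e j (i + 1) := by
  induction N with
  | zero => simp [s_zero]
  | succ N ih =>
    rw [Finset.sum_range_succ, Finset.sum_range_succ, ih, s_succ]
    push_cast
    rw [show j + ((N : ℤ) + 1) = j + N + 1 by ring]
    simp only [sub_smul, smul_add]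
    abel

namespace Filt

lemma D_Y (F : Filt Q U e) {f : ℤ → ℝ} {K : ℕ} (hf : ∀ k : ℤ, (K : ℤ) < |k| → f k = 0) {j : ℤ}
    (hj : -(2 * K : ℤ) < j) :
    D Q j (Y e f K) = ∑ i ∈ range (3 * K + 1), f (j + i) • D Q j (e (j + i)) := by
  unfold Y
  rw [D_sum]
  have h1 : ∀ k ∈ Icc (-(K : ℤ)) K, D Q j (f k • e k) = f k • D Q j (e k) := fun k _ => D_smul _ _ _
  rw [Finset.sum_congr rfl h1]
  have h2 : ∑ i ∈ range (3 * K + 1), f (j + i) • D Q j (e (j + i)) =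
      ∑ k ∈ Ico j (j + (3 * K + 1 : ℕ)), f k • D Q j (e k) := by
    symm
    refine Finset.sum_bij' (fun k _ => (k - j).toNat) (fun i _ => j + (i : ℤ)) ?_ ?_ ?_ ?_ ?_
    · intro k hk
      rw [Finset.mem_Ico] at hk
      rw [Finset.mem_range]
      omega
    · intro i hi
      rw [Finset.mem_range] at hi
      rw [Finset.mem_Ico]
      omega
    · intro k hk
      rw [Finset.mem_Ico] at hk
      show j + ((k - j).toNat : ℤ) = k
      omega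
    · intro i hi
      show (j + (i : ℤ) - j).toNat = i
      omega
    · intro k hk
      rw [Finset.mem_Ico] at hk
      have : j + ((k - j).toNat : ℤ) = k := by omega
      rw [this]
  rw [h2]
  have h3 : ∑ k ∈ Icc (-(K : ℤ)) K, f k • D Q j (e k) =
      ∑ k ∈ (Icc (-(K : ℤ)) K).filter (fun k => j ≤ k), f k • D Q j (e k) := by
    rw [Finset.sum_filter]
    refine Finset.sum_congr rfl fun k _ => ?_
    split_ifs with h
    · rfl
    · rw [F.D_zero (by omega), smul_zero]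
  have h4 : ∑ k ∈ Ico j (j + (3 * K + 1 : ℕ)), f k • D Q j (e k) =
      ∑ k ∈ (Ico j (j + (3 * K + 1 : ℕ))).filter (fun k : ℤ => |k| ≤ (K : ℤ)), f k • D Q j (e k) := by
    rw [Finset.sum_filter]
    refine Finset.sum_congr rfl fun k _ => ?_
    split_ifs with h
    · rfl
    · rw [hf k (by omega), zero_smul]
  rw [h3, h4]
  refine Finset.sum_congr ?_ fun _ _ => rfl
  ext k
  simp only [Finset.mem_filter, Finset.mem_Icc, Finset.mem_Ico, abs_le]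
  omega

lemma D_Y_le (F : Filt Q U e) {f : ℤ → ℝ} {K : ℕ} (hf : ∀ k : ℤ, (K : ℤ) < |k| → f k = 0) {b : ℝ}
    (hb : ∀ k : ℤ, |f (k + 1) - f k| ≤ b) {j : ℤ} (hj : -(2 * K : ℤ) < j) :
    ‖D Q j (Y e f K)‖ ≤ b * ∑ m ∈ Icc 1 (3 * K + 1), ‖s Q e 0 m‖ := by
  rw [F.D_Y hf hj, abel_s, hf (j + (3 * K + 1 : ℕ)) (by
    rw [lt_abs]; left; push_cast; omega), zero_smul, zero_sub, norm_neg]
  refine (norm_sum_le _ _).trans ?_
  rw [Finset.mul_sum]
  have e1 : Icc 1 (3 * K + 1) = Ico 1 (3 * K + 1 + 1) := by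
    ext x; rw [Finset.mem_Icc, Finset.mem_Ico]; omega
  rw [e1, Finset.sum_Ico_eq_sum_range, Nat.add_sub_cancel]
  refine Finset.sum_le_sum fun i _ => ?_
  rw [norm_smul, F.norm_s, Real.norm_eq_abs, add_comm 1 i]
  exact mul_le_mul_of_nonneg_right (hb _) (norm_nonneg _)

lemma Q_far (F : Filt Q U e) {f : ℤ → ℝ} {K : ℕ} {B : ℝ} (hB : ∀ k, |f k| ≤ B) :
    ‖Q (-(2 * K : ℤ)) (Y e f K)‖ ≤ (2 * K + 1) * (B * g Q e K) := by
  unfold Y
  rw [map_sum]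
  refine (norm_sum_le _ _).trans ?_
  have h1 : ∀ k ∈ Icc (-(K : ℤ)) K, ‖Q (-(2 * K : ℤ)) (f k • e k)‖ ≤ B * g Q e K := by
    intro k hk
    rw [Finset.mem_Icc] at hk
    rw [map_smul, norm_smul, Real.norm_eq_abs]
    have h2 := F.norm_Q (k + 2 * K).toNat (-(2 * K : ℤ))
    rw [show -(2 * K : ℤ) + ((k + 2 * K).toNat : ℤ) = k by omega] at h2
    rw [h2]
    exact mul_le_mul (hB k) (F.g_anti (by omega)) (g_nonneg _) ((abs_nonneg _).trans (hB k))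
  refine (Finset.sum_le_sum h1).trans ?_
  rw [Finset.sum_const, Int.card_Icc, nsmul_eq_mul]
  refine le_of_eq ?_
  congr 1
  have : ((K : ℤ) + 1 - -(K : ℤ)).toNat = 2 * K + 1 := by omega
  rw [this]
  push_cast
  ring

lemma Q_top (F : Filt Q U e) (f : ℤ → ℝ) (K : ℕ) : Q K (Y e f K) = Y e f K := by
  unfold Y
  rw [map_sum]
  refine Finset.sum_congr rfl fun k hk => ?_
  rw [Finset.mem_Icc] at hk
  rw [map_smul, F.mem _ _ hk.2]

lemma Y_sq (F : Filt Q U e) {f : ℤ → ℝ} {K : ℕ} (hf : ∀ k : ℤ, (K : ℤ) < |k| → f k = 0) {b B : ℝ}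
    (hb : ∀ k : ℤ, |f (k + 1) - f k| ≤ b) (hB : ∀ k, |f k| ≤ B) :
    ‖Y e f K‖ ^ 2 ≤ ((2 * K + 1) * (B * g Q e K)) ^ 2 +
      3 * K * (b * ∑ m ∈ Icc 1 (3 * K + 1), ‖s Q e 0 m‖) ^ 2 := by
  have h1 := F.tele (Y e f K) (-(2 * K : ℤ)) (3 * K)
  rw [show -(2 * K : ℤ) + ((3 * K : ℕ) : ℤ) = K by push_cast; ring, F.Q_top] at h1
  rw [h1]
  have h2 := pow_le_pow_left₀ (norm_nonneg _) (F.Q_far (K := K) hB) 2
  have h3 : ∑ i ∈ range (3 * K), ‖D Q (-(2 * K : ℤ) + i + 1) (Y e f K)‖ ^ 2 ≤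
      3 * K * (b * ∑ m ∈ Icc 1 (3 * K + 1), ‖s Q e 0 m‖) ^ 2 := by
    have h4 : ∀ i ∈ range (3 * K), ‖D Q (-(2 * K : ℤ) + i + 1) (Y e f K)‖ ^ 2 ≤
        (b * ∑ m ∈ Icc 1 (3 * K + 1), ‖s Q e 0 m‖) ^ 2 := fun i _ =>
      pow_le_pow_left₀ (norm_nonneg _) (F.D_Y_le hf hb (by omega)) 2
    refine (Finset.sum_le_sum h4).trans (le_of_eq ?_)
    rw [Finset.sum_const, card_range, nsmul_eq_mul]
    push_cast
    ring
  linarith

end Filt

/-- `∑ 1/√m ≤ 2 √N` -/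
lemma sum_inv_sqrt (N : ℕ) : ∑ m ∈ Icc 1 N, 1 / √(m : ℝ) ≤ 2 * √N := by
  induction N with
  | zero => simp
  | succ N ih =>
    rw [Finset.sum_Icc_succ_top (by omega)]
    have h1 : 0 < √((N + 1 : ℕ) : ℝ) := Real.sqrt_pos.2 (by positivity)
    have h2 : √(N : ℝ) ≤ √((N + 1 : ℕ) : ℝ) := Real.sqrt_le_sqrt (by push_cast; linarith)
    have h3 : 1 / √((N + 1 : ℕ) : ℝ) ≤ 2 * (√((N + 1 : ℕ) : ℝ) - √N) := by
      rw [div_le_iff₀ h1]
      have e1 : √((N + 1 : ℕ) : ℝ) * √((N + 1 : ℕ) : ℝ) = N + 1 := by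
        rw [Real.mul_self_sqrt (by positivity)]; push_cast; ring
      have e2 : √(N : ℝ) * √N = N := Real.mul_self_sqrt (by positivity)
      nlinarith [mul_nonneg (Real.sqrt_nonneg (N : ℝ)) (sub_nonneg.2 h2)]
    linarith

namespace Filt

/-- the sum of the norms of the partial sums -/
lemma s_sum (F : Filt Q U e) {c : ℝ} (hc : 0 ≤ c) {n M K : ℕ} (hn : 1 ≤ n)
    (hg : ∀ m, n ≤ m → m ≤ 2 * M → g Q e m ≤ c / m) (hKM : 3 * K + 1 ≤ M) {W1 W2 : ℝ}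
    (hW1 : ‖∑ i ∈ range n, e i‖ ^ 2 ≤ W1) (hW2 : ‖∑ i ∈ range (2 * M), e i‖ ^ 2 ≤ W2) :
    ∑ m ∈ Icc 1 (3 * K + 1), ‖s Q e 0 m‖ ≤
      √(n * W1) + (3 * K + 1) * √(W2 / M) + 8 * c * √(3 * K + 1 : ℕ) := by
  have hM0 : (0 : ℝ) < M := by
    have : 1 ≤ M := by omega
    exact_mod_cast this
  have hW20 : 0 ≤ W2 := (sq_nonneg _).trans hW2
  -- a good index
  obtain ⟨m1, hm1, hm1s⟩ : ∃ m1, m1 ∈ Ioc M (2 * M) ∧ ‖s Q e 0 m1‖ ≤ √(W2 / M) := by
    have h1 : ∑ m ∈ Ioc M (2 * M), ‖s Q e 0 m‖ ^ 2 ≤ ∑ m ∈ Ioc M (2 * M), W2 / M := by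
      have h2 : ∑ m ∈ Ioc M (2 * M), ‖s Q e 0 m‖ ^ 2 ≤ ∑ m ∈ Icc 1 (2 * M), ‖s Q e 0 m‖ ^ 2 := by
        refine Finset.sum_le_sum_of_subset_of_nonneg (fun x hx => ?_) fun _ _ _ => sq_nonneg _
        rw [Finset.mem_Ioc] at hx
        rw [Finset.mem_Icc]
        omega
      have h3 := F.s_energy (2 * M)
      rw [Finset.sum_const, Nat.card_Ioc, nsmul_eq_mul, show 2 * M - M = M by omega]
      rw [mul_div_cancel₀ _ hM0.ne']
      linarith
    obtain ⟨m1, hm1, h4⟩ := Finset.exists_le_of_sum_le (s := Ioc M (2 * M)) (by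
      rw [Finset.nonempty_Ioc]; omega) h1
    refine ⟨m1, hm1, ?_⟩
    rw [← Real.sqrt_sq (norm_nonneg (s Q e 0 m1))]
    exact Real.sqrt_le_sqrt h4
  rw [Finset.mem_Ioc] at hm1
  -- split
  have hpt : ∀ m ∈ Icc 1 (3 * K + 1), ‖s Q e 0 m‖ ≤
      (if m < n then ‖s Q e 0 m‖ else 0) + (√(W2 / M) + 4 * c * (1 / √(m : ℝ))) := by
    intro m hm
    rw [Finset.mem_Icc] at hm
    split_ifs with h
    · have : 0 ≤ √(W2 / M) + 4 * c * (1 / √(m : ℝ)) := by positivity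
      linarith
    · have := F.s_diff hc hn hg (m := m) (m1 := m1) (by omega) (by omega) (by omega)
      rw [zero_add, mul_one_div]
      linarith
  refine (Finset.sum_le_sum hpt).trans ?_
  rw [Finset.sum_add_distrib, Finset.sum_add_distrib, Finset.sum_const, Nat.card_Icc, nsmul_eq_mul,
    ← Finset.mul_sum, Nat.add_sub_cancel]
  have hA : ∑ m ∈ Icc 1 (3 * K + 1), (if m < n then ‖s Q e 0 m‖ else 0) ≤ √(n * W1) := by
    rw [← Finset.sum_filter]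
    have h1 : ∑ m ∈ (Icc 1 (3 * K + 1)).filter (fun m => m < n), ‖s Q e 0 m‖ ≤
        ∑ m ∈ Icc 1 n, ‖s Q e 0 m‖ := by
      refine Finset.sum_le_sum_of_subset_of_nonneg (fun x hx => ?_) fun _ _ _ => norm_nonneg _
      rw [Finset.mem_filter, Finset.mem_Icc] at hx
      rw [Finset.mem_Icc]
      omega
    refine h1.trans ?_
    apply Real.le_sqrt_of_sq_le
    have h2 := sq_sum_le_card_mul_sum_sq (s := Icc 1 n) (f := fun m : ℕ => ‖s Q e 0 m‖)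
    rw [Nat.card_Icc, Nat.add_sub_cancel] at h2
    refine h2.trans (mul_le_mul_of_nonneg_left ?_ (Nat.cast_nonneg _))
    exact (F.s_energy n).trans hW1
  have hB := sum_inv_sqrt (3 * K + 1)
  have hB' : 4 * c * ∑ m ∈ Icc 1 (3 * K + 1), 1 / √(m : ℝ) ≤ 8 * c * √(3 * K + 1 : ℕ) := by
    have := mul_le_mul_of_nonneg_left hB (by positivity : 0 ≤ 4 * c)
    linarith
  push_cast at *
  linarith

/-- **small prediction norms give a small variance** -/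
theorem Y_small (F : Filt Q U e) {c : ℝ} (hc : 0 ≤ c) {n M K : ℕ} (hn : 1 ≤ n) (hnK : n ≤ K)
    (hg : ∀ m, n ≤ m → m ≤ 2 * M → g Q e m ≤ c / m) (hKM : 3 * K + 1 ≤ M) {W1 W2 : ℝ}
    (hW1 : ‖∑ i ∈ range n, e i‖ ^ 2 ≤ W1) (hW2 : ‖∑ i ∈ range (2 * M), e i‖ ^ 2 ≤ W2)
    (h1 : n * W1 ≤ c ^ 2 * K) (h2 : K * W2 ≤ c ^ 2 * M)
    {f : ℤ → ℝ} (hf : ∀ k : ℤ, (K : ℤ) < |k| → f k = 0) {b B : ℝ}
    (hb : ∀ k : ℤ, |f (k + 1) - f k| ≤ b) (hB : ∀ k, |f k| ≤ B) :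
    ‖Y e f K‖ ^ 2 ≤ 9 * B ^ 2 * c ^ 2 + 1600 * (K * b) ^ 2 * c ^ 2 := by
  have hK1 : 1 ≤ K := hn.trans hnK
  have hKr : (1 : ℝ) ≤ K := by exact_mod_cast hK1
  have hK0 : (0 : ℝ) < K := by linarith
  have hM0 : (0 : ℝ) < M := by
    have : 1 ≤ M := by omega
    exact_mod_cast this
  have hW20 : 0 ≤ W2 := (sq_nonneg _).trans hW2
  have hB0 : 0 ≤ B := (abs_nonneg _).trans (hB 0)
  have hY := F.Y_sq hf hb hB
  have hs := F.s_sum (K := K) hc hn hg hKM hW1 hW2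
  have hgK : g Q e K ≤ c / K := hg K hnK (by omega)
  -- first part
  have p1 : (2 * K + 1) * (B * g Q e K) ≤ 3 * B * c := by
    calc (2 * (K : ℝ) + 1) * (B * g Q e K) ≤ 3 * K * (B * (c / K)) := by
          apply mul_le_mul (by linarith) (mul_le_mul_of_nonneg_left hgK hB0)
            (mul_nonneg hB0 (g_nonneg _)) (by positivity)
      _ = 3 * B * c := by field_simp
  have p1' : ((2 * K + 1) * (B * g Q e K)) ^ 2 ≤ 9 * B ^ 2 * c ^ 2 := by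
    have := pow_le_pow_left₀ (mul_nonneg (by positivity) (mul_nonneg hB0 (g_nonneg _))) p1 2
    nlinarith
  -- second part
  have q1 : √(n * W1) ≤ c * √K := by
    rw [← Real.sqrt_sq hc, ← Real.sqrt_mul (sq_nonneg c)]
    exact Real.sqrt_le_sqrt h1
  have q2 : (3 * (K : ℝ) + 1) * √(W2 / M) ≤ 4 * (c * √K) := by
    have e1 : √(W2 / M) ≤ c / √K := by
      rw [le_div_iff₀ (Real.sqrt_pos.2 hK0), ← Real.sqrt_mul (by positivity)]
      rw [← Real.sqrt_sq hc]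
      apply Real.sqrt_le_sqrt
      rw [div_mul_eq_mul_div, div_le_iff₀ hM0]
      linarith
    have e2 : (K : ℝ) / √K = √K := Real.div_sqrt
    calc (3 * (K : ℝ) + 1) * √(W2 / M) ≤ (4 * K) * (c / √K) :=
          mul_le_mul (by linarith) e1 (Real.sqrt_nonneg _) (by positivity)
      _ = 4 * (c * (K / √K)) := by ring
      _ = 4 * (c * √K) := by rw [e2]
  have q3 : √(3 * K + 1 : ℕ) ≤ 2 * √K := by
    rw [show (2 : ℝ) = √4 by rw [show (4 : ℝ) = 2 ^ 2 by norm_num, Real.sqrt_sq (by norm_num)],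
      ← Real.sqrt_mul (by norm_num)]
    apply Real.sqrt_le_sqrt
    push_cast
    linarith
  have hT : ∑ m ∈ Icc 1 (3 * K + 1), ‖s Q e 0 m‖ ≤ 21 * (c * √K) := by
    have q4 : 8 * c * √(3 * K + 1 : ℕ) ≤ 16 * (c * √K) := by
      have := mul_le_mul_of_nonneg_left q3 (by positivity : 0 ≤ 8 * c)
      linarith
    linarith
  have hS0 : 0 ≤ ∑ m ∈ Icc 1 (3 * K + 1), ‖s Q e 0 m‖ := Finset.sum_nonneg fun _ _ => norm_nonneg _
  have p2 : (b * ∑ m ∈ Icc 1 (3 * K + 1), ‖s Q e 0 m‖) ^ 2 ≤ b ^ 2 * (441 * (c ^ 2 * K)) := by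
    rw [mul_pow]
    refine mul_le_mul_of_nonneg_left ?_ (sq_nonneg _)
    have := pow_le_pow_left₀ hS0 hT 2
    refine this.trans (le_of_eq ?_)
    rw [mul_pow, mul_pow, Real.sq_sqrt hK0.le]
    ring
  have p3 : 3 * (K : ℝ) * (b * ∑ m ∈ Icc 1 (3 * K + 1), ‖s Q e 0 m‖) ^ 2 ≤
      1600 * (K * b) ^ 2 * c ^ 2 := by
    refine (mul_le_mul_of_nonneg_left p2 (by positivity)).trans ?_
    have : 0 ≤ ((K : ℝ) * b) ^ 2 * c ^ 2 := by positivity
    nlinarith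
  linarith

end Filt
end Q172.Mem
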