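import Pool.Agent.Q172.Mem.H2

/-! The closed spans of the past of a stationary sequence. -/

set_option autoImplicit false

namespace Q172.Mem

open Finset
open scoped RealInnerProductSpace

variable {H : Type*} [NormedAddCommGroup H] [InnerProductSpace ℝ H] [CompleteSpace H]

/-- closed span of the past -/
noncomputable def past (e : ℤ → H) (j : ℤ) : Submodule ℝ H :=
  (Submodule.span ℝ (e '' Set.Iic j)).topologicalClosure

noncomputable instance (e : ℤ → H) (j : ℤ) : CompleteSpace (past e j) :=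
  (Submodule.isClosed_topologicalClosure _).completeSpace_coe

noncomputable def QQ (e : ℤ → H) (j : ℤ) : H →L[ℝ] H := (past e j).starProjection

omit [CompleteSpace H] in
lemma past_mono (e : ℤ → H) {i j : ℤ} (h : i ≤ j) : past e i ≤ past e j :=
  Submodule.topologicalClosure_mono (Submodule.span_mono (Set.image_mono (Set.Iic_subset_Iic.2 h)))

omit [CompleteSpace H] in
lemma mem_past (e : ℤ → H) {k j : ℤ} (h : k ≤ j) : e k ∈ past e j :=
  Submodule.le_topologicalClosure _ (Submodule.subset_span ⟨k, h, rfl⟩)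

omit [CompleteSpace H] in
lemma mem_orth (e : ℤ → H) {j : ℤ} {z : H} (h : ∀ k, k ≤ j → ⟪e k, z⟫ = 0) : z ∈ (past e j)ᗮ := by
  unfold past
  rw [Submodule.orthogonal_closure, Submodule.mem_orthogonal]
  intro u hu
  induction hu using Submodule.span_induction with
  | mem x hx =>
    obtain ⟨k, hk, rfl⟩ := hx
    exact h k hk
  | zero => exact inner_zero_left _
  | add x y _ _ hx hy => rw [inner_add_left, hx, hy, add_zero]
  | smul a x _ hx => rw [real_inner_smul_left, hx, mul_zero]

theorem filt {U : H →ₗᵢ[ℝ] H} {e : ℤ → H} (hU : ∀ k, U (e k) = e (k + 1)) : Filt (QQ e) U e where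
  sym j x y := Submodule.inner_starProjection_left_eq_right _ _ _
  low i j h x := by
    have := Submodule.starProjection_comp_starProjection_of_le (past_mono e h)
    exact DFunLike.congr_fun this x
  up i j h x := by
    unfold QQ
    rw [Submodule.starProjection_eq_self_iff]
    exact past_mono e h (Submodule.starProjection_apply_mem _ _)
  mem j k h := by
    unfold QQ
    rw [Submodule.starProjection_eq_self_iff]
    exact mem_past e h
  shift j x := by
    unfold QQ
    have h1 : past e j ≤ (past e (j + 1)).comap U.toLinearMap := by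
      refine Submodule.topologicalClosure_minimal _ ?_ ?_
      · rw [Submodule.span_le]
        rintro _ ⟨k, hk, rfl⟩
        show U (e k) ∈ past e (j + 1)
        rw [hU]
        exact mem_past e (by simpa using hk)
      · exact (Submodule.isClosed_topologicalClosure _).preimage U.continuous
    have hm : U ((past e j).starProjection x) ∈ past e (j + 1) :=
      h1 (Submodule.starProjection_apply_mem _ x)
    refine Submodule.eq_starProjection_of_mem_orthogonal hm ?_
    rw [← map_sub]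
    refine mem_orth e fun k hk => ?_
    have h2 : e k = U (e (k - 1)) := by rw [hU, sub_add_cancel]
    rw [h2, U.inner_map_map]
    exact (Submodule.sub_starProjection_mem_orthogonal (K := past e j) x) (e (k - 1))
      (mem_past e (by omega))
  Ue := hU

/-- a large prediction norm is seen by a finite linear combination of the past -/
theorem finite_combo (e : ℤ → H) (x : H) {a : ℝ} (ha : 0 < a) (h : a ≤ ‖QQ e 0 x‖) :
    ∃ y ∈ Submodule.span ℝ (e '' Set.Iic 0), ‖y‖ ≤ 1 ∧ a / 2 ≤ ⟪y, x⟫ := by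
  set v := QQ e 0 x with hv
  have hv0 : 0 < ‖v‖ := ha.trans_le h
  have hvm : v ∈ past e 0 := Submodule.starProjection_apply_mem _ _
  have hvx : ⟪v, x⟫ = ‖v‖ ^ 2 := by
    have h1 : ⟪v, x - v⟫ = 0 :=
      (Submodule.sub_starProjection_mem_orthogonal (K := past e 0) x) v hvm
    rw [inner_sub_right, real_inner_self_eq_norm_sq] at h1
    linarith
  have hx0 : 0 < ‖x‖ := by
    rw [norm_pos_iff]
    rintro rfl
    rw [inner_zero_right] at hvx
    nlinarith
  -- approximate `v`
  obtain ⟨δ, hδ, hδ1, hδ2⟩ : ∃ δ : ℝ, 0 < δ ∧ δ ≤ ‖v‖ / 8 ∧ δ * ‖x‖ ≤ ‖v‖ ^ 2 / 8 := by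
    refine ⟨min (‖v‖ / 8) (‖v‖ ^ 2 / (8 * ‖x‖)), by positivity, min_le_left _ _, ?_⟩
    calc min (‖v‖ / 8) (‖v‖ ^ 2 / (8 * ‖x‖)) * ‖x‖ ≤ ‖v‖ ^ 2 / (8 * ‖x‖) * ‖x‖ :=
          mul_le_mul_of_nonneg_right (min_le_right _ _) hx0.le
      _ = ‖v‖ ^ 2 / 8 := by field_simp
  have hcl : v ∈ closure (Submodule.span ℝ (e '' Set.Iic 0) : Set H) := hvm
  obtain ⟨y, hy, hyv⟩ := Metric.mem_closure_iff.1 hcl δ hδ
  rw [dist_eq_norm] at hyv
  have hyn : ‖y‖ ≤ ‖v‖ + δ := by
    have := norm_sub_norm_le y v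
    rw [norm_sub_rev] at this
    linarith
  set b := ‖v‖ + δ with hb
  have hb0 : 0 < b := by positivity
  refine ⟨b⁻¹ • y, Submodule.smul_mem _ _ hy, ?_, ?_⟩
  · rw [norm_smul, Real.norm_eq_abs, abs_of_pos (inv_pos.2 hb0), inv_mul_le_iff₀ hb0, mul_one]
    exact hyn
  · rw [real_inner_smul_left]
    have h1 : ⟪y, x⟫ = ‖v‖ ^ 2 - ⟪v - y, x⟫ := by rw [inner_sub_left, hvx]; ring
    have h2 : ⟪v - y, x⟫ ≤ δ * ‖x‖ :=
      (real_inner_le_norm _ _).trans (mul_le_mul_of_nonneg_right hyv.le hx0.le)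
    have h3 : 7 / 8 * ‖v‖ ^ 2 ≤ ⟪y, x⟫ := by linarith
    rw [inv_mul_eq_div, le_div_iff₀ hb0]
    have h4 : b ≤ 9 / 8 * ‖v‖ := by linarith
    nlinarith

end Q172.Mem
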